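import Pool.Agent.Work.MP_308fa9_nt.CG.Curve

/-! # Closeness in `E(L)` for a normed field `L`; the closure of `ℤ·Q₀` in `∏_v E(K_v)` -/

set_option autoImplicit false

namespace MP308.CG

open WeierstrassCurve.Affine NumberField IsDedekindDomain

/-- `R` is `δ`-close to `S` in `E(L)`, `L` a normed field. For fixed `S` these sets (`δ > 0`) are a basis of
neighbourhoods of `S` in `E(L)`: for an affine point `S` both coordinates of `R` are close to those of `S`;
close to `O` are `O` and the points with large `x`-coordinate. -/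
def NearL {L : Type*} [NormedField L] {a b c : ℤ} (δ : ℝ) : (E L a b c).Point → (E L a b c).Point → Prop
  | .zero, .zero => True
  | .zero, .some _ _ _ => False
  | .some x _ _, .zero => 1 / δ ≤ ‖x‖
  | .some x y _, .some x' y' _ => ‖x - x'‖ ≤ δ ∧ ‖y - y'‖ ≤ δ

theorem NearL.mono {L : Type*} [NormedField L] {a b c : ℤ} {δ δ' : ℝ} (hδ : 0 < δ) (hδ' : δ ≤ δ')
    {R S : (E L a b c).Point} (h : NearL δ R S) : NearL δ' R S := by
  cases R with
  | zero =>
    cases S with
    | zero => trivial
    | some x' y' h' => exact h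
  | some x y h1 =>
    cases S with
    | zero =>
      have h2 : 1 / δ ≤ ‖x‖ := h
      exact (one_div_le_one_div_of_le hδ hδ').trans h2
    | some x' y' h' =>
      have h2 : ‖x - x'‖ ≤ δ ∧ ‖y - y'‖ ≤ δ := h
      exact ⟨h2.1.trans hδ', h2.2.trans hδ'⟩

theorem NearL.refl {L : Type*} [NormedField L] {a b c : ℤ} {δ : ℝ} (hδ : 0 < δ)
    (S : (E L a b c).Point) : NearL δ S S := by
  cases S with
  | zero => trivial
  | some x y h =>
    refine ⟨?_, ?_⟩ <;> rw [sub_self, norm_zero] <;> exact hδ.le

/-- the completion `K_v` has characteristic 0 -/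
instance adicCompletion_charZero (K : Type*) [Field K] [NumberField K] (v : HeightOneSpectrum (𝓞 K)) :
    CharZero (v.adicCompletion K) :=
  charZero_of_injective_algebraMap (algebraMap K (v.adicCompletion K)).injective

open Classical in
/-- `(R_v)_v` lies in the closure of `ℤ·Q₀` in `∏_v E(K_v)` (product over all finite places `v` of the number
field `K`, product topology) -/
def InClosureK (K : Type*) [Field K] [NumberField K] (a c : ℤ) {b : ℤ} (hb : Odd b)
    (R : ∀ v : HeightOneSpectrum (𝓞 K), (E (v.adicCompletion K) a b c).Point) : Prop :=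
  ∀ (S : Finset (HeightOneSpectrum (𝓞 K))) (δ : ℝ), 0 < δ → ∃ m : ℤ, ∀ v ∈ S,
    NearL δ (m • Q₀ (v.adicCompletion K) a c hb) (R v)

end MP308.CG
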