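import Pool.Agent.Work.MP_308fa9_nt.CN.Place
import Pool.Agent.Work.MP_308fa9_nt.CN.NearL

/-! # Squares in `K_v`, `v` a place with `e`, `f` odd -/

set_option autoImplicit false

namespace MP308.CG

open NumberField IsDedekindDomain

/-- `1 + q + ... + q^(f-1)` is odd for odd `q`, `f` -/
private theorem locK_odd_sum {q f : ℕ} (hq : Odd q) (hf : Odd f) :
    Odd (∑ i ∈ Finset.range f, q ^ i) := by
  rw [← Nat.not_even_iff_odd, ← ZMod.natCast_eq_zero_iff_even]
  have hq1 : (q : ZMod 2) = 1 := (ZMod.natCast_eq_one_iff_odd).2 hq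
  have hf1 : (f : ZMod 2) = 1 := (ZMod.natCast_eq_one_iff_odd).2 hf
  push_cast
  simp [hq1, hf1]

/-- an integer which is a square in a field with `q^f` elements, `f` odd, is a square mod `q` -/
private theorem locK_isSquare {κ : Type*} [Field κ] {q f : ℕ} (hq : q.Prime) (hq2 : q ≠ 2)
    (hf : Odd f) (hcard : Nat.card κ = q ^ f) (hch : (q : κ) = 0) {x : ℤ} {r : κ}
    (h : r ^ 2 = (x : κ)) : IsSquare ((x : ℤ) : ZMod q) := by
  have hFq : Fact q.Prime := ⟨hq⟩
  have hfin : Finite κ := Nat.finite_of_card_ne_zero (by rw [hcard]; exact pow_ne_zero _ hq.ne_zero)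
  have hft : Fintype κ := Fintype.ofFinite κ
  have hcp : CharP κ q := by
    refine (CharP.charP_iff_prime_eq_zero hq).2 hch
  have hqodd : Odd q := hq.odd_of_ne_two hq2
  by_cases hx0 : ((x : ℤ) : ZMod q) = 0
  · rw [hx0]; exact IsSquare.zero
  by_contra hns
  have h1 : ((x : ℤ) : ZMod q) ^ (q / 2) = -1 := by
    rcases ZMod.pow_div_two_eq_neg_one_or_one q hx0 with h1 | h1
    · exact absurd ((ZMod.euler_criterion q hx0).2 h1) hns
    · exact h1
  have h2 : ((x : ℤ) : κ) ^ (q / 2) = -1 := by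
    have := congrArg (ZMod.castHom (dvd_refl q) κ) h1
    simpa using this
  have hr0 : r ≠ 0 := by
    rintro rfl
    rw [← h] at h2
    have hq3 : 0 < q / 2 := by
      have := hq.two_le
      omega
    rw [zero_pow two_ne_zero, zero_pow hq3.ne'] at h2
    exact one_ne_zero (α := κ) (by linear_combination h2)
  have h3 : r ^ (q ^ f - 1) = 1 := by
    have := FiniteField.pow_card_sub_one_eq_one r hr0
    rwa [← Nat.card_eq_fintype_card, hcard] at this
  have h4 : q ^ f - 1 = 2 * (q / 2) * ∑ i ∈ Finset.range f, q ^ i := by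
    have e1 : 2 * (q / 2) + 1 = q := by
      obtain ⟨k, hk⟩ := hqodd
      omega
    have e2 := geom_sum_mul_add (2 * (q / 2)) f
    rw [e1] at e2
    rw [← e2, Nat.add_sub_cancel, mul_comm]
  rw [h4, pow_mul, pow_mul, h, h2, (locK_odd_sum hqodd hf).neg_one_pow] at h3
  have h5 : ((2 : ℕ) : κ) = 0 := by push_cast; linear_combination -h3
  rw [CharP.cast_eq_zero_iff κ q] at h5
  exact hq2 ((Nat.prime_dvd_prime_iff_eq hq Nat.prime_two).1 h5)

/-- no element of order 3 in a field with `2^f` elements, `f` odd -/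
private theorem locK_no_root {κ : Type*} [Field κ] {f : ℕ} (hf : Odd f)
    (hcard : Nat.card κ = 2 ^ f) (h2 : (2 : κ) = 0) {r : κ} (h : r ^ 2 + r + 1 = 0) : False := by
  have hfin : Finite κ := Nat.finite_of_card_ne_zero (by rw [hcard]; positivity)
  have hft : Fintype κ := Fintype.ofFinite κ
  have h3 : r ^ 3 = 1 := by linear_combination (r - 1) * h
  have hr0 : r ≠ 0 := by
    rintro rfl
    exact one_ne_zero (α := κ) (by linear_combination h)
  have h4 : r ^ (2 ^ f - 1) = 1 := by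
    have := FiniteField.pow_card_sub_one_eq_one r hr0
    rwa [← Nat.card_eq_fintype_card, hcard] at this
  obtain ⟨k, hk⟩ : ∃ k, 2 ^ f - 1 = 3 * k + 1 := by
    obtain ⟨m, rfl⟩ := hf
    have e : (2 ^ (2 * m + 1)) % 3 = 2 := by
      rw [pow_succ, pow_mul, Nat.mul_mod, Nat.pow_mod]
      norm_num
    generalize 2 ^ (2 * m + 1) = N at e
    exact ⟨(N - 1) / 3, by omega⟩
  rw [hk, pow_succ, pow_mul, h3, one_pow, one_mul] at h4
  rw [h4] at h
  exact one_ne_zero (α := κ) (by linear_combination h - h2)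

variable {K : Type*} [Field K] [NumberField K] {v : HeightOneSpectrum (𝓞 K)}

private theorem locK_norm_lt {r : 𝓞 K} :
    ‖algebraMap K (v.adicCompletion K) r‖ < 1 ↔ r ∈ v.asIdeal :=
  FinitePlace.norm_lt_one_iff_mem K v r

private theorem locK_norm_le (r : 𝓞 K) : ‖algebraMap K (v.adicCompletion K) r‖ ≤ 1 :=
  FinitePlace.norm_le_one K v r

theorem norm_lt_one_of_mem {q : ℕ} (h : (q : 𝓞 K) ∈ v.asIdeal) :
    ‖((q : ℕ) : v.adicCompletion K)‖ < 1 := by
  have := (locK_norm_lt (v := v) (r := (q : 𝓞 K))).2 h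
  simpa using this

private theorem locK_sub_le (x y : v.adicCompletion K) : ‖x - y‖ ≤ max ‖x‖ ‖y‖ := by
  rw [sub_eq_add_neg, ← norm_neg y]
  exact IsUltrametricDist.norm_add_le_max _ _

private theorem locK_val_lt {x y : v.adicCompletion K} :
    ‖x‖ < ‖y‖ ↔ Valued.v x < Valued.v y := by
  rw [FinitePlace.norm_def, FinitePlace.norm_def, NNReal.coe_lt_coe]
  exact (WithZeroMulInt.toNNReal_strictMono (HeightOneSpectrum.one_lt_absNorm_nnreal v)).lt_iff_lt

private theorem locK_val_eq {x y : v.adicCompletion K} :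
    ‖x‖ = ‖y‖ ↔ Valued.v x = Valued.v y := by
  rw [FinitePlace.norm_def, FinitePlace.norm_def, NNReal.coe_inj]
  exact (WithZeroMulInt.toNNReal_strictMono (HeightOneSpectrum.one_lt_absNorm_nnreal v)).injective.eq_iff

/-- `𝓞 K` is dense in the integers of `K_v` -/
theorem exists_integer_near (z : v.adicCompletion K) (hz : ‖z‖ ≤ 1) :
    ∃ r : 𝓞 K, ‖z - algebraMap K (v.adicCompletion K) r‖ < 1 := by
  obtain ⟨k, hk⟩ : ∃ k : K, ‖z - algebraMap K (v.adicCompletion K) k‖ < 1 := by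
    have := (v.denseRange_algebraMap K).exists_dist_lt z (one_pos)
    obtain ⟨k, hk⟩ := this
    exact ⟨k, by rwa [dist_eq_norm] at hk⟩
  have hk1 : ‖algebraMap K (v.adicCompletion K) k‖ ≤ 1 := by
    have e : algebraMap K (v.adicCompletion K) k
        = z - (z - algebraMap K (v.adicCompletion K) k) := by ring
    rw [e]
    refine (locK_sub_le _ _).trans (max_le hz hk.le)
  have hk2 : v.valuation K k ≤ 1 := by
    rw [← not_lt] at hk1 ⊢
    intro hlt
    apply hk1
    have : ‖(1 : v.adicCompletion K)‖ < ‖algebraMap K (v.adicCompletion K) k‖ := by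
      rw [locK_val_lt, map_one]
      have e := v.valuedAdicCompletion_eq_valuation' k
      rw [show algebraMap K (v.adicCompletion K) k = (k : v.adicCompletion K) from rfl, e]
      exact hlt
    rwa [norm_one] at this
  obtain ⟨r, hr⟩ := v.exists_valuation_sub_lt_of_integer hk2 1
  refine ⟨r, ?_⟩
  have hr1 : ‖algebraMap K (v.adicCompletion K) (algebraMap (𝓞 K) K r - k)‖ < 1 := by
    have : ‖algebraMap K (v.adicCompletion K) (algebraMap (𝓞 K) K r - k)‖
        < ‖(1 : v.adicCompletion K)‖ := by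
      rw [locK_val_lt, map_one]
      have e := v.valuedAdicCompletion_eq_valuation' (algebraMap (𝓞 K) K r - k)
      rw [show algebraMap K (v.adicCompletion K) (algebraMap (𝓞 K) K r - k)
        = ((algebraMap (𝓞 K) K r - k : K) : v.adicCompletion K) from rfl, e]
      simpa using hr
    rwa [norm_one] at this
  have e : z - algebraMap K (v.adicCompletion K) r
      = (z - algebraMap K (v.adicCompletion K) k)
        - algebraMap K (v.adicCompletion K) (algebraMap (𝓞 K) K r - k) := by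
    rw [map_sub]; ring
  rw [e]
  exact (locK_sub_le _ _).trans_lt (max_lt hk hr1)

private theorem locK_norm_int_le (x : ℤ) : ‖(x : v.adicCompletion K)‖ ≤ 1 := by
  have := locK_norm_le (v := v) (x : 𝓞 K)
  simpa using this

/-- polynomial congruence: from `z` to `r ∈ 𝓞 K` -/
private theorem locK_sq_near {z : v.adicCompletion K} (hz : ‖z‖ ≤ 1) {r : 𝓞 K}
    (hr : ‖z - algebraMap K (v.adicCompletion K) r‖ < 1) :
    ‖z ^ 2 - algebraMap K (v.adicCompletion K) r ^ 2‖ < 1 := by
  have e : z ^ 2 - algebraMap K (v.adicCompletion K) r ^ 2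
      = (z - algebraMap K (v.adicCompletion K) r) * (z + algebraMap K (v.adicCompletion K) r) := by
    ring
  rw [e, norm_mul]
  have h1 : ‖z + algebraMap K (v.adicCompletion K) r‖ ≤ 1 :=
    (IsUltrametricDist.norm_add_le_max _ _).trans (max_le hz (locK_norm_le r))
  calc _ ≤ ‖z - algebraMap K (v.adicCompletion K) r‖ * 1 :=
        mul_le_mul_of_nonneg_left h1 (norm_nonneg _)
    _ < 1 := by rwa [mul_one]

/-- `q` odd: `z ≡ r ∈ 𝓞 K mod v`, so `x` is a square in the field `𝓞 K / v` with `q^f` elements, `f` odd,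
and `x^((q^f-1)/2) = (x^((q-1)/2))^(1+q+...+q^(f-1))`. -/
theorem isSquare_of_oddPlace {q : ℕ} (hq : q.Prime) (hq2 : q ≠ 2) (hv : OddPlace v q) (x : ℤ)
    (z : v.adicCompletion K) (h : ‖z ^ 2 - (x : v.adicCompletion K)‖ < 1) :
    IsSquare ((x : ℤ) : ZMod q) := by
  have hz : ‖z‖ ≤ 1 := by
    have h1 : ‖z ^ 2‖ ≤ 1 := by
      have e : z ^ 2 = (z ^ 2 - (x : v.adicCompletion K)) + (x : v.adicCompletion K) := by ring
      rw [e]
      exact (IsUltrametricDist.norm_add_le_max _ _).trans (max_le h.le (locK_norm_int_le x))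
    rw [norm_pow] at h1
    exact (pow_le_one_iff_of_nonneg (norm_nonneg _) two_ne_zero).1 h1
  obtain ⟨r, hr⟩ := exists_integer_near z hz
  have h1 := locK_sq_near hz hr
  have h2 : ‖algebraMap K (v.adicCompletion K) ((r ^ 2 - (x : 𝓞 K) : 𝓞 K))‖ < 1 := by
    have e : algebraMap K (v.adicCompletion K) ((r ^ 2 - (x : 𝓞 K) : 𝓞 K))
        = (z ^ 2 - (x : v.adicCompletion K))
          - (z ^ 2 - algebraMap K (v.adicCompletion K) r ^ 2) := by
      push_cast
      simp only [map_intCast]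
      ring
    rw [e]
    exact (locK_sub_le _ _).trans_lt (max_lt h h1)
  rw [locK_norm_lt] at h2
  obtain ⟨f, hf, hcard⟩ := hv.deg
  have hmax : v.asIdeal.IsMaximal := v.isMaximal
  let _ : Field (𝓞 K ⧸ v.asIdeal) := Ideal.Quotient.field v.asIdeal
  refine locK_isSquare (κ := 𝓞 K ⧸ v.asIdeal) hq hq2 hf hcard (r := Ideal.Quotient.mk v.asIdeal r) ?_ ?_
  · have := (Ideal.Quotient.eq_zero_iff_mem).2 hv.mem
    simpa using this
  · have := (Ideal.Quotient.eq_zero_iff_mem).2 h2
    rw [map_sub, map_pow, map_intCast, sub_eq_zero] at this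
    exact this

/-- `e` odd: `‖2‖` is not a square -/
private theorem locK_parity (hv : OddPlace v 2) (y : v.adicCompletion K) :
    ‖y‖ ^ 2 ≠ ‖(2 : v.adicCompletion K)‖ := by
  intro h
  obtain ⟨e, he, hval⟩ := hv.ram
  rw [← norm_pow, locK_val_eq] at h
  have h2 : Valued.v (2 : v.adicCompletion K) = WithZero.exp (-(e : ℤ)) := by
    rw [← hval, ← v.valuedAdicCompletion_eq_valuation']
    congr 1
    have : algebraMap K (v.adicCompletion K) ((2 : ℕ) : K) = (2 : v.adicCompletion K) := by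
      rw [map_natCast]; norm_num
    exact this.symm
  rw [h2, map_pow] at h
  have h3 := congrArg WithZero.log h
  rw [WithZero.log_pow, WithZero.log_exp] at h3
  obtain ⟨k, rfl⟩ := he
  simp only [nsmul_eq_mul] at h3
  push_cast at h3
  omega

/-- `q = 2`. `x ≡ 2 mod 4`: `v(x) = e` is odd. `x` odd: `‖z‖ = 1`, `‖z² - x‖ < ‖4‖`; if `x ≡ 3 mod 4`:
`‖z-1‖‖z+1‖ = ‖2‖ = ‖(z+1)-(z-1)‖`, `e` odd: contradiction; if `x ≡ 5 mod 8`: `‖z-1‖‖z+1‖ = ‖4‖`, so
`‖z-1‖ = ‖z+1‖ = ‖2‖`, `u = (z-1)/2`, `u(u+1) ≡ (x-1)/4 ≡ 1`: an element of order 3 in `(𝓞 K/v)ˣ`, `f` odd. -/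
theorem two_of_oddPlace (hv : OddPlace v 2) {x : ℤ} (h4 : ¬ (4 : ℤ) ∣ x) {z u : v.adicCompletion K}
    (hu : ‖u - 1‖ < ‖(4 : v.adicCompletion K)‖) (h : (x : v.adicCompletion K) = z ^ 2 * u) :
    x % 8 = 1 := by
  have n2 : ‖(2 : v.adicCompletion K)‖ < 1 := by
    have := norm_lt_one_of_mem hv.mem
    exact_mod_cast this
  have n2pos : 0 < ‖(2 : v.adicCompletion K)‖ := norm_pos_iff.2 two_ne_zero
  have n4 : ‖(4 : v.adicCompletion K)‖ = ‖(2 : v.adicCompletion K)‖ ^ 2 := by
    rw [← norm_pow]; norm_num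
  have n42 : ‖(4 : v.adicCompletion K)‖ < ‖(2 : v.adicCompletion K)‖ := by
    rw [n4]; nlinarith
  have hodd : ∀ k : ℤ, k % 2 = 1 → ‖(k : v.adicCompletion K)‖ = 1 := by
    intro k hk
    refine le_antisymm (locK_norm_int_le k) ?_
    by_contra hlt
    rw [not_le] at hlt
    obtain ⟨m, hm⟩ : ∃ m : ℤ, k = 2 * m + 1 := ⟨k / 2, by omega⟩
    have e1 : (1 : v.adicCompletion K) = (k : v.adicCompletion K) - 2 * (m : v.adicCompletion K) := by
      rw [hm]; push_cast; ring
    have e2 : ‖(2 : v.adicCompletion K) * (m : v.adicCompletion K)‖ < 1 := by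
      rw [norm_mul]
      calc _ ≤ ‖(2 : v.adicCompletion K)‖ * 1 :=
            mul_le_mul_of_nonneg_left (locK_norm_int_le m) (norm_nonneg _)
        _ < 1 := by rwa [mul_one]
    have e3 : ‖(1 : v.adicCompletion K)‖ < 1 := by
      rw [e1]
      exact (locK_sub_le _ _).trans_lt (max_lt hlt e2)
    rw [norm_one] at e3
    exact lt_irrefl _ e3
  have nu : ‖u‖ = 1 := by
    have e1 : ‖u - 1‖ < 1 := hu.trans (n42.trans n2)
    have e2 : ‖(u - 1) + 1‖ = max ‖u - 1‖ ‖(1 : v.adicCompletion K)‖ :=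
      IsUltrametricDist.norm_add_eq_max_of_norm_ne_norm (by rw [norm_one]; exact e1.ne)
    rw [sub_add_cancel, norm_one, max_eq_right e1.le] at e2
    exact e2
  have hz2 : ‖z‖ ^ 2 = ‖(x : v.adicCompletion K)‖ := by
    rw [h, norm_mul, nu, mul_one, norm_pow]
  by_contra hne
  have hcases : x % 4 = 2 ∨ x % 4 = 3 ∨ x % 8 = 5 := by omega
  rcases hcases with hx | hx
  · obtain ⟨y, hy, hy2⟩ : ∃ y : ℤ, x = 2 * y ∧ y % 2 = 1 := ⟨x / 2, by omega, by omega⟩
    rw [hy] at hz2
    push_cast at hz2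
    rw [norm_mul, hodd y hy2, mul_one] at hz2
    exact locK_parity hv z hz2
  -- `x` odd
  have hx2 : x % 2 = 1 := by omega
  have nz2 : ‖z‖ ^ 2 = 1 := by rw [hz2, hodd x hx2]
  have nz : ‖z‖ = 1 := (pow_eq_one_iff_of_nonneg (norm_nonneg _) two_ne_zero).1 nz2
  have hzx : ‖z ^ 2 - (x : v.adicCompletion K)‖ < ‖(4 : v.adicCompletion K)‖ := by
    have e : z ^ 2 - (x : v.adicCompletion K) = -(z ^ 2 * (u - 1)) := by rw [h]; ring
    rw [e, norm_neg, norm_mul, norm_pow, nz2, one_mul]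
    exact hu
  have hAB : (z - 1) * (z + 1) = (z ^ 2 - (x : v.adicCompletion K)) + ((x : v.adicCompletion K) - 1) := by
    ring
  have hdiff : ‖z - 1‖ ≠ ‖z + 1‖ → ‖(2 : v.adicCompletion K)‖ = max ‖z + 1‖ ‖z - 1‖ := by
    intro hne'
    have e2 : ‖(z + 1) + (-(z - 1))‖ = max ‖z + 1‖ ‖-(z - 1)‖ :=
      IsUltrametricDist.norm_add_eq_max_of_norm_ne_norm (by rw [norm_neg]; exact hne'.symm)
    rw [norm_neg, show (z + 1) + (-(z - 1)) = 2 by ring] at e2
    exact e2
  have hA0 := norm_nonneg (z - 1)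
  have hB0 := norm_nonneg (z + 1)
  rcases hx with hx | hx
  · obtain ⟨k, hk, hk2⟩ : ∃ k : ℤ, x = 2 * k + 1 ∧ k % 2 = 1 := ⟨x / 2, by omega, by omega⟩
    have n1 : ‖(x : v.adicCompletion K) - 1‖ = ‖(2 : v.adicCompletion K)‖ := by
      have e : (x : v.adicCompletion K) - 1 = 2 * (k : v.adicCompletion K) := by
        rw [hk]; push_cast; ring
      rw [e, norm_mul, hodd k hk2, mul_one]
    have hprod : ‖z - 1‖ * ‖z + 1‖ = ‖(2 : v.adicCompletion K)‖ := by
      rw [← norm_mul, hAB, IsUltrametricDist.norm_add_eq_max_of_norm_ne_norm, n1,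
        max_eq_right (hzx.trans n42).le]
      rw [n1]
      exact (hzx.trans n42).ne
    by_cases hABeq : ‖z - 1‖ = ‖z + 1‖
    · rw [← hABeq, ← pow_two] at hprod
      exact locK_parity hv _ hprod
    · have e1 := hdiff hABeq
      have e2 : ‖z + 1‖ ≤ ‖(2 : v.adicCompletion K)‖ := by rw [e1]; exact le_max_left _ _
      have e3 : ‖z - 1‖ ≤ ‖(2 : v.adicCompletion K)‖ := by rw [e1]; exact le_max_right _ _
      nlinarith [mul_le_mul e3 e2 hB0 n2pos.le]
  · obtain ⟨k, hk, hk2⟩ : ∃ k : ℤ, x = 4 * k + 1 ∧ k % 2 = 1 := ⟨x / 4, by omega, by omega⟩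
    have hxk : (x : v.adicCompletion K) - 1 = 4 * (k : v.adicCompletion K) := by
      rw [hk]; push_cast; ring
    have n1 : ‖(x : v.adicCompletion K) - 1‖ = ‖(4 : v.adicCompletion K)‖ := by
      rw [hxk, norm_mul, hodd k hk2, mul_one]
    have hprod : ‖z - 1‖ * ‖z + 1‖ = ‖(2 : v.adicCompletion K)‖ ^ 2 := by
      rw [← norm_mul, hAB, IsUltrametricDist.norm_add_eq_max_of_norm_ne_norm, n1,
        max_eq_right hzx.le, n4]
      rw [n1]
      exact hzx.ne
    have hA : ‖z - 1‖ = ‖(2 : v.adicCompletion K)‖ := by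
      by_cases hABeq : ‖z - 1‖ = ‖z + 1‖
      · rw [← hABeq, ← pow_two] at hprod
        exact (pow_left_inj₀ hA0 n2pos.le two_ne_zero).1 hprod
      · have e1 := hdiff hABeq
        rcases max_choice ‖z + 1‖ ‖z - 1‖ with e2 | e2
        · rw [← e1] at e2
          rw [← e2, pow_two] at hprod
          exact mul_right_cancel₀ n2pos.ne' hprod
        · rw [← e1] at e2
          exact e2.symm
    -- `y = (z - 1) / 2`
    have h20 : (2 : v.adicCompletion K) ≠ 0 := two_ne_zero
    obtain ⟨y, hy⟩ : ∃ y : v.adicCompletion K, z = 2 * y + 1 := ⟨(z - 1) / 2, by field_simp; ring⟩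
    have ny : ‖y‖ = 1 := by
      rw [hy, add_sub_cancel_right, norm_mul] at hA
      have := mul_left_cancel₀ n2pos.ne' (hA.trans (mul_one _).symm)
      exact this
    have hyk : ‖y ^ 2 + y - (k : v.adicCompletion K)‖ < 1 := by
      have e : z ^ 2 - (x : v.adicCompletion K) = 4 * (y ^ 2 + y - (k : v.adicCompletion K)) := by
        rw [hy]; linear_combination -hxk
      rw [e, norm_mul] at hzx
      have n4pos : 0 < ‖(4 : v.adicCompletion K)‖ := by rw [n4]; positivity
      by_contra hcon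
      rw [not_lt] at hcon
      nlinarith
    have hk1 : ‖(k : v.adicCompletion K) + 1‖ < 1 := by
      obtain ⟨m, hm⟩ : ∃ m : ℤ, k + 1 = 2 * m := ⟨(k + 1) / 2, by omega⟩
      have e : (k : v.adicCompletion K) + 1 = 2 * (m : v.adicCompletion K) := by exact_mod_cast hm
      rw [e, norm_mul]
      calc _ ≤ ‖(2 : v.adicCompletion K)‖ * 1 :=
            mul_le_mul_of_nonneg_left (locK_norm_int_le m) (norm_nonneg _)
        _ < 1 := by rwa [mul_one]
    obtain ⟨r, hr⟩ := exists_integer_near y ny.le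
    have hr2 := locK_sq_near ny.le hr
    have h3 : ‖algebraMap K (v.adicCompletion K) ((r ^ 2 + r + 1 : 𝓞 K))‖ < 1 := by
      have e : algebraMap K (v.adicCompletion K) ((r ^ 2 + r + 1 : 𝓞 K))
          = ((y ^ 2 + y - (k : v.adicCompletion K)) + ((k : v.adicCompletion K) + 1))
            - ((y ^ 2 - algebraMap K (v.adicCompletion K) r ^ 2)
              + (y - algebraMap K (v.adicCompletion K) r)) := by
        push_cast
        ring
      rw [e]
      refine (locK_sub_le _ _).trans_lt (max_lt ?_ ?_)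
      · exact (IsUltrametricDist.norm_add_le_max _ _).trans_lt (max_lt hyk hk1)
      · exact (IsUltrametricDist.norm_add_le_max _ _).trans_lt (max_lt hr2 hr)
    rw [locK_norm_lt] at h3
    obtain ⟨f, hf, hcard⟩ := hv.deg
    have hmax : v.asIdeal.IsMaximal := v.isMaximal
    let _ : Field (𝓞 K ⧸ v.asIdeal) := Ideal.Quotient.field v.asIdeal
    refine locK_no_root (κ := 𝓞 K ⧸ v.asIdeal) hf hcard ?_ (r := Ideal.Quotient.mk v.asIdeal r) ?_
    · have := (Ideal.Quotient.eq_zero_iff_mem).2 hv.mem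
      rw [map_natCast] at this
      exact_mod_cast this
    · have := (Ideal.Quotient.eq_zero_iff_mem).2 h3
      rw [map_add, map_add, map_pow, map_one] at this
      exact this

end MP308.CG
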