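import Pool.Agent.Work.MP_308fa9_nt.CG.Geo
import Pool.Agent.Work.MP_308fa9_nt.CN.NearL

/-! # Section 3 over a normed field `L`: the limit of `m_N Q₀` with `m_N → 1` -/

set_option autoImplicit false

namespace MP308.CG

open Classical WeierstrassCurve.Affine

variable {a b c : ℤ}

/-- integers which are not divisible by `q` are units -/
theorem locLB_unit {q : ℕ} (hq : q.Prime) {L : Type*} [NormedField L] [IsUltrametricDist L]
    (hqL : ‖((q : ℕ) : L)‖ < 1) (n : ℤ) (hn : ¬ (q : ℤ) ∣ n) : ‖(n : L)‖ = 1 := by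
  have hint : ∀ z : ℤ, ‖(z : L)‖ ≤ 1 := fun z => IsUltrametricDist.norm_intCast_le_one L z
  have hcop : IsCoprime (q : ℤ) n := (Nat.prime_iff_prime_int.1 hq).coprime_iff_not_dvd.2 hn
  obtain ⟨u, v, huv⟩ := hcop
  have h1 : (u : L) * (q : L) + (v : L) * (n : L) = 1 := by exact_mod_cast congrArg (Int.cast : ℤ → L) huv
  by_contra hne
  have hlt : ‖(n : L)‖ < 1 := lt_of_le_of_ne (hint n) hne
  have h2 : ‖(u : L) * (q : L)‖ < 1 := by
    rw [norm_mul]
    calc ‖(u : L)‖ * ‖(q : L)‖ ≤ 1 * ‖(q : L)‖ :=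
          mul_le_mul_of_nonneg_right (hint u) (norm_nonneg _)
      _ < 1 := by rw [one_mul]; exact hqL
  have h3 : ‖(v : L) * (n : L)‖ < 1 := by
    rw [norm_mul]
    calc ‖(v : L)‖ * ‖(n : L)‖ ≤ 1 * ‖(n : L)‖ :=
          mul_le_mul_of_nonneg_right (hint v) (norm_nonneg _)
      _ < 1 := by rw [one_mul]; exact hlt
  have h4 : ‖(u : L) * (q : L) + (v : L) * (n : L)‖ < 1 :=
    (IsUltrametricDist.norm_add_le_max _ _).trans_lt (max_lt h2 h3)
  rw [h1, norm_one] at h4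
  exact lt_irrefl _ h4

theorem locLB_dvd {q : ℕ} {L : Type*} [NormedField L] [IsUltrametricDist L] {k : ℕ} {n : ℤ}
    (hn : (q : ℤ) ^ k ∣ n) : ‖(n : L)‖ ≤ ‖((q : ℕ) : L)‖ ^ k := by
  obtain ⟨z, rfl⟩ := hn
  push_cast
  rw [norm_mul, norm_pow]
  have := IsUltrametricDist.norm_intCast_le_one L z
  exact mul_le_of_le_one_right (by positivity) this

/-- the coordinates of `m Q₀` are small when a high power of `q` divides `W_{m-1}` -/
theorem locLB_small (h : Par₀ a b c) {q : ℕ} (hq : q.Prime)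
    {L : Type*} [NormedField L] [IsUltrametricDist L] [CharZero L] (hqL : ‖((q : ℕ) : L)‖ < 1)
    (δ : ℝ) (k : ℕ) (hk : 1 ≤ k) (hk2 : ‖((q : ℕ) : L)‖ ^ k ≤ δ * ‖(b : L)‖)
    (m : ℤ) (hm : m ≠ 0) (hdvd : (q : ℤ) ^ k ∣ W a b c (m - 1)) :
    ∃ (x y : L) (hh : (E L a b c).Nonsingular x y),
      m • Q₀ L a c h.odd = .some x y hh ∧ ‖x‖ ≤ δ ∧ ‖y‖ ≤ δ := by
  obtain ⟨hh, e⟩ := zsmul_Q₀ (K := L) h m hm
  have hq1 : (q : ℤ) ∣ W a b c (m - 1) := (dvd_pow_self _ (by omega)).trans hdvd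
  have hcop : IsCoprime (W a b c m) (W a b c (m - 1)) :=
    cop_W h m (m - 1) ⟨1, -1, by ring⟩
  have hnd : ¬ (q : ℤ) ∣ W a b c m := by
    intro h1
    have h2 := hcop.isUnit_of_dvd' h1 hq1
    have h3 := Int.isUnit_iff.mp h2
    have h4 := hq.two_le
    omega
  have hW : ‖((W a b c m : ℤ) : L)‖ = 1 := locLB_unit hq hqL _ hnd
  have hb0 : (0 : ℝ) < ‖(b : L)‖ := norm_pos_iff.2 (by exact_mod_cast h.b_ne)
  have hb1 : ‖(b : L)‖ ≤ 1 := IsUltrametricDist.norm_intCast_le_one L b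
  have hq0 : 0 ≤ ‖((q : ℕ) : L)‖ ^ k := by positivity
  have hδ : 0 ≤ δ := by
    by_contra hneg
    push Not at hneg
    have := mul_neg_of_neg_of_pos hneg hb0
    linarith
  have hqδ : ‖((q : ℕ) : L)‖ ^ k ≤ δ := hk2.trans (mul_le_of_le_one_right hδ hb1)
  refine ⟨_, _, hh, e, ?_, ?_⟩
  · rw [norm_div, norm_pow, hW, one_pow, div_one]
    refine (locLB_dvd (L := L) (q := q) (k := k) ?_).trans hqδ
    simp only [X]
    exact (hdvd.mul_left _).neg_right
  · rw [norm_div, norm_mul, norm_pow, hW, one_pow, mul_one]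
    have h1 : ‖((Y a b c m : ℤ) : L)‖ ≤ ‖((q : ℕ) : L)‖ ^ k := by
      refine locLB_dvd ?_
      simp only [Y]
      apply dvd_sub
      · exact (hdvd.trans (dvd_pow_self _ two_ne_zero)).mul_left _
      · rw [show c * W a b c (m - 1) * W a b c m * W a b c (m + 1)
          = W a b c (m - 1) * (c * W a b c m * W a b c (m + 1)) by ring]
        exact hdvd.mul_right _
    rw [div_le_iff₀ hb0]
    exact h1.trans hk2

/-- the limit of `m_N Q₀` with `m_N ≡ 1` modulo everything is `Q₀` -/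
theorem limit_eqL (h : Par₀ a b c) {q : ℕ} (hq : q.Prime)
    {L : Type*} [NormedField L] [IsUltrametricDist L] [CharZero L] (hqL : ‖((q : ℕ) : L)‖ < 1)
    (R : (E L a b c).Point) (m : ℕ → ℤ)
    (hm : ∀ δ : ℝ, 0 < δ → ∀ᶠ N in Filter.atTop, NearL δ (m N • Q₀ L a c h.odd) R)
    (h1 : ∀ M : ℤ, M ≠ 0 → ∀ᶠ N in Filter.atTop, M ∣ m N - 1) : R = Q₀ L a c h.odd := by
  have hb0 : (0 : ℝ) < ‖(b : L)‖ := norm_pos_iff.2 (by exact_mod_cast h.b_ne)
  have key : ∀ δ : ℝ, 0 < δ → ∃ (x y : L) (hh : (E L a b c).Nonsingular x y),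
      NearL δ (.some x y hh) R ∧ ‖x‖ ≤ δ ∧ ‖y‖ ≤ δ := by
    intro δ hδ
    obtain ⟨k, hk⟩ := exists_pow_lt_of_lt_one (mul_pos hδ hb0) hqL
    have hk' : ‖((q : ℕ) : L)‖ ^ (k + 1) ≤ δ * ‖(b : L)‖ := by
      refine le_trans ?_ hk.le
      exact pow_le_pow_of_le_one (norm_nonneg _) hqL.le (by omega)
    obtain ⟨n, hn, hdvd⟩ := exists_pow_dvd h q hq (k + 1)
    obtain ⟨N, hN1, hN2, hN3⟩ := ((hm δ hδ).and ((h1 n hn).and (h1 2 two_ne_zero))).exists
    have hm0 : m N ≠ 0 := by omega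
    have hd : (q : ℤ) ^ (k + 1) ∣ W a b c (m N - 1) := hdvd.trans (dvd_W h _ _ hN2)
    obtain ⟨x, y, hh, e, hx, hy⟩ := locLB_small h hq hqL δ (k + 1) (by omega) hk' (m N) hm0 hd
    rw [e] at hN1
    exact ⟨x, y, hh, hN1, hx, hy⟩
  cases R with
  | zero =>
    exfalso
    obtain ⟨x, y, hh, h2, h3, -⟩ := key (1 / 2) (by norm_num)
    have h4 : 1 / (1 / 2 : ℝ) ≤ ‖x‖ := h2
    norm_num at h4
    linarith
  | some x' y' h' =>
    have hx' : x' = 0 := by
      rw [← norm_le_zero_iff]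
      refine le_of_forall_pos_le_add fun δ hδ => ?_
      obtain ⟨x, y, hh, h2, h3, h4⟩ := key δ hδ
      have h5 : ‖x - x'‖ ≤ δ := h2.1
      have h6 : x' = x + -(x - x') := by ring
      rw [h6, zero_add]
      refine (IsUltrametricDist.norm_add_le_max _ _).trans (max_le h3 ?_)
      rw [norm_neg]
      exact h5
    have hy' : y' = 0 := by
      rw [← norm_le_zero_iff]
      refine le_of_forall_pos_le_add fun δ hδ => ?_
      obtain ⟨x, y, hh, h2, h3, h4⟩ := key δ hδ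
      have h5 : ‖y - y'‖ ≤ δ := h2.2
      have h6 : y' = y + -(y - y') := by ring
      rw [h6, zero_add]
      refine (IsUltrametricDist.norm_add_le_max _ _).trans (max_le h4 ?_)
      rw [norm_neg]
      exact h5
    subst hx' hy'
    rfl

end MP308.CG
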