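import Pool.Agent.Work.MP_308fa9_nt.CG.Geo
import Pool.Agent.Work.MP_308fa9_nt.CN.NearL
import Pool.Agent.Work.MP_308fa9_nt.CN.LocLB

/-! # Section 3 over a normed field `L`: the local condition at a place above an odd prime
(port of `CG/LocalO`) -/

set_option autoImplicit false

namespace MP308.CG

open Classical WeierstrassCurve.Affine

section ring

variable (L : Type*) [NormedField L] [IsUltrametricDist L]

/-- the integers of `L` -/
def locLO_O : Subring L where
  carrier := {x | ‖x‖ ≤ 1}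
  mul_mem' := by
    intro x y hx hy
    rw [Set.mem_setOf_eq] at hx hy ⊢
    rw [norm_mul]
    exact mul_le_one₀ hx (norm_nonneg _) hy
  one_mem' := by
    rw [Set.mem_setOf_eq, norm_one]
  add_mem' := by
    intro x y hx hy
    exact (IsUltrametricDist.norm_add_le_max _ _).trans (max_le hx hy)
  zero_mem' := by
    rw [Set.mem_setOf_eq, norm_zero]
    exact zero_le_one
  neg_mem' := by
    intro x hx
    rw [Set.mem_setOf_eq] at hx ⊢
    rwa [norm_neg]

/-- the maximal ideal -/
def locLO_m : Ideal (locLO_O L) where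
  carrier := {x | ‖(x : L)‖ < 1}
  add_mem' := by
    intro x y hx hy
    rw [Set.mem_setOf_eq] at hx hy ⊢
    rw [Subring.coe_add]
    exact (IsUltrametricDist.norm_add_le_max _ _).trans_lt (max_lt hx hy)
  zero_mem' := by
    rw [Set.mem_setOf_eq, Subring.coe_zero, norm_zero]
    exact zero_lt_one
  smul_mem' := by
    intro x y hy
    rw [Set.mem_setOf_eq] at hy ⊢
    rw [smul_eq_mul, Subring.coe_mul, norm_mul]
    calc ‖(x : L)‖ * ‖(y : L)‖ ≤ 1 * ‖(y : L)‖ := mul_le_mul_of_nonneg_right x.2 (norm_nonneg _)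
      _ < 1 := by rwa [one_mul]

instance locLO_prime : (locLO_m L).IsPrime where
  ne_top' := by
    intro h
    have h1 : (1 : locLO_O L) ∈ locLO_m L := by rw [h]; trivial
    have h2 : ‖((1 : locLO_O L) : L)‖ < 1 := h1
    rw [Subring.coe_one, norm_one] at h2
    exact lt_irrefl _ h2
  mem_or_mem' := by
    intro x y hxy
    have h2 : ‖((x * y : locLO_O L) : L)‖ < 1 := hxy
    rw [Subring.coe_mul, norm_mul] at h2
    by_contra hcon
    push Not at hcon
    have hx : 1 ≤ ‖(x : L)‖ := not_lt.1 hcon.1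
    have hy : 1 ≤ ‖(y : L)‖ := not_lt.1 hcon.2
    have := one_le_mul_of_one_le_of_one_le hx hy
    linarith

/-- the residue ring -/
abbrev locLO_k := locLO_O L ⧸ locLO_m L

/-- the reduction -/
abbrev locLO_r : locLO_O L →+* locLO_k L := Ideal.Quotient.mk (locLO_m L)

variable {L}

/-- reduction is zero iff the norm is `< 1` -/
theorem locLO_red (z : locLO_O L) : locLO_r L z = 0 ↔ ‖(z : L)‖ < 1 :=
  Ideal.Quotient.eq_zero_iff_mem

theorem locLO_le (z : locLO_O L) : ‖(z : L)‖ ≤ 1 := z.2

theorem locLO_sub (x y : locLO_O L) : ((x - y : locLO_O L) : L) = x - y := rfl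

@[push_cast] theorem locLO_c4 : ((4 : locLO_O L) : L) = 4 := rfl

theorem locLO_lift {z : L} (h : ‖z‖ ≤ 1) : ∃ z' : locLO_O L, (z' : L) = z := ⟨⟨z, h⟩, rfl⟩

omit [IsUltrametricDist L] in
theorem locLO_pow {w : L} {n : ℕ} (hn : n ≠ 0) (h : ‖w ^ n‖ ≤ 1) : ‖w‖ ≤ 1 := by
  rw [norm_pow] at h
  exact (pow_le_one_iff_of_nonneg (norm_nonneg _) hn).1 h

theorem locLO_unit {q : ℕ} (hq : q.Prime) (hqL : ‖((q : ℕ) : L)‖ < 1) {n : ℤ}
    (hn : ¬ (q : ℤ) ∣ n) : ‖(n : L)‖ = 1 := locLB_unit hq hqL n hn

theorem locLO_int {q : ℕ} (hq : q.Prime) (hqL : ‖((q : ℕ) : L)‖ < 1) (n : ℤ) :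
    ((n : ℤ) : locLO_k L) = 0 ↔ (q : ℤ) ∣ n := by
  have h1 : ((n : ℤ) : locLO_k L) = locLO_r L ((n : ℤ) : locLO_O L) := by simp
  rw [h1, locLO_red, Subring.coe_intCast]
  constructor
  · intro h
    by_contra hcon
    rw [locLO_unit hq hqL hcon] at h
    exact lt_irrefl _ h
  · rintro ⟨k, rfl⟩
    push_cast
    rw [norm_mul]
    have := IsUltrametricDist.norm_intCast_le_one L k
    calc ‖((q : ℕ) : L)‖ * ‖(k : L)‖ ≤ ‖((q : ℕ) : L)‖ * 1 :=
          mul_le_mul_of_nonneg_left this (norm_nonneg _)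
      _ < 1 := by rw [mul_one]; exact hqL

theorem locLO_two {q : ℕ} (hq : q.Prime) (hq2 : q ≠ 2) (hqL : ‖((q : ℕ) : L)‖ < 1) :
    ‖(2 : L)‖ = 1 := by
  have h := locLO_unit (L := L) hq hqL (n := 2) (by
    intro h
    have h1 : q ∣ 2 := by exact_mod_cast h
    exact hq2 ((Nat.prime_dvd_prime_iff_eq hq Nat.prime_two).1 h1))
  exact_mod_cast h

theorem locLO_two' {q : ℕ} (hq : q.Prime) (hq2 : q ≠ 2) (hqL : ‖((q : ℕ) : L)‖ < 1) :
    (2 : locLO_k L) ≠ 0 := by
  intro h
  have h2 : (((2 : ℤ) : ℤ) : locLO_k L) = 0 := by exact_mod_cast h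
  rw [locLO_int hq hqL] at h2
  have h1 : q ∣ 2 := by exact_mod_cast h2
  exact hq2 ((Nat.prime_dvd_prime_iff_eq hq Nat.prime_two).1 h1)

theorem locLO_four {s : locLO_k L} (h : s ^ 4 = 1) (h' : s ^ 2 ≠ 1) :
    s ^ 2 = -1 := by
  have h1 : (s ^ 2 - 1) * (s ^ 2 + 1) = 0 := by linear_combination h
  rcases mul_eq_zero.1 h1 with h2 | h2
  · exact absurd (by linear_combination h2) h'
  · linear_combination h2

theorem locLO_sq {q : ℕ} (hsq : ∀ (x : ℤ) (z : L), ‖z ^ 2 - (x : L)‖ < 1 →
    IsSquare ((x : ℤ) : ZMod q)) (x : ℤ) (h : IsSquare ((x : ℤ) : locLO_k L)) :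
    IsSquare ((x : ℤ) : ZMod q) := by
  obtain ⟨r, hr⟩ := h
  obtain ⟨z, rfl⟩ := Ideal.Quotient.mk_surjective r
  refine hsq x (z : L) ?_
  have h1 : locLO_r L (z ^ 2 - (x : locLO_O L)) = 0 := by
    rw [map_sub, map_pow, map_intCast, hr, pow_two, sub_self]
  rw [locLO_red] at h1
  push_cast at h1
  exact h1

theorem locLO_near {q : ℕ} (hq : q.Prime) (hqL : ‖((q : ℕ) : L)‖ < 1) {n d : ℤ}
    (hd : ¬ (q : ℤ) ∣ d) {z : L} (h : ‖(n : L) / (d : L) - z‖ < 1) :
    ∃ ζ : locLO_O L, (ζ : L) = z ∧ locLO_r L ζ * ((d : ℤ) : locLO_k L) = ((n : ℤ) : locLO_k L) := by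
  have hdn := locLO_unit hq hqL hd
  have hd0 : (d : L) ≠ 0 := by
    intro h0
    rw [h0, norm_zero] at hdn
    exact zero_ne_one hdn
  have hn := IsUltrametricDist.norm_intCast_le_one L n
  have hz : ‖z‖ ≤ 1 := by
    have e : z = (n : L) / (d : L) + (-((n : L) / (d : L) - z)) := by ring
    rw [e]
    refine (IsUltrametricDist.norm_add_le_max _ _).trans (max_le ?_ ?_)
    · rw [norm_div, hdn, div_one]; exact hn
    · rw [norm_neg]; exact h.le
  obtain ⟨ζ, rfl⟩ := locLO_lift hz
  refine ⟨ζ, rfl, ?_⟩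
  have h1 : locLO_r L (ζ * (d : locLO_O L) - (n : locLO_O L)) = 0 := by
    rw [locLO_red]
    push_cast
    have e : (ζ : L) * (d : L) - (n : L) = -(((n : L) / (d : L) - ζ) * (d : L)) := by
      field_simp
      ring
    rw [e, norm_neg, norm_mul, hdn, mul_one]
    exact h
  rw [map_sub, map_mul, map_intCast, map_intCast] at h1
  linear_combination h1

end ring

section main

variable {L : Type*} [NormedField L] [IsUltrametricDist L] [CharZero L]

/-- `-1` is a square mod `q` if `f P = O` or `f P` reduces to `O`. -/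
theorem locLO_neg_one {a b c : ℤ} (hb : Odd b) {q : ℕ} (hq : q.Prime) (hq2 : q ≠ 2)
    (hqL : ‖((q : ℕ) : L)‖ < 1)
    (hsq : ∀ (x : ℤ) (z : L), ‖z ^ 2 - (x : L)‖ < 1 → IsSquare ((x : ℤ) : ZMod q))
    (P : CPt L a b c)
    (h : f hb P = 0 ∨ ∃ x y h', f hb P = .some x y h' ∧ 1 < ‖x‖) : IsSquare (-1 : ZMod q) := by
  suffices hS : IsSquare (((-1 : ℤ) : ℤ) : ZMod q) by simpa using hS
  cases P with
  | inf ε hε =>
    have hε2 : ε ^ 2 ≠ 1 := by
      intro h2
      simp only [f, h2, if_true, Q₀] at h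
      rcases h with h | ⟨x, y, h', h3, h4⟩
      · exact Point.some_ne_zero _ h
      · injection h3 with h5 h6
        rw [← h5, norm_zero] at h4
        linarith
    have h8 : ε ^ 2 = -1 := by
      have h1 : (ε ^ 2 - 1) * (ε ^ 2 + 1) = 0 := by linear_combination hε
      rcases mul_eq_zero.1 h1 with h2 | h2
      · exact absurd (by linear_combination h2) hε2
      · linear_combination h2
    refine hsq (-1) ε ?_
    rw [h8]
    push_cast
    rw [sub_self, norm_zero]
    exact zero_lt_one
  | aff t w hw =>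
    obtain ⟨hx1, -⟩ : 1 < ‖(t ^ 2 - a - w ^ 2) / 2‖ ∧ True := by
      refine ⟨?_, trivial⟩
      rcases h with h | ⟨x, y, h', h3, h4⟩
      · simp only [f] at h
        exact absurd h (Point.some_ne_zero _)
      · simp only [f] at h3
        injection h3 with h5 h6
        rw [h5]
        exact h4
    rw [norm_div, locLO_two hq hq2 hqL, div_one] at hx1
    -- `|t| > 1`
    have ht : 1 < ‖t‖ := by
      by_contra hcon
      push Not at hcon
      obtain ⟨t', rfl⟩ := locLO_lift hcon
      have h1 : ‖w ^ 4‖ ≤ 1 := by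
        rw [hw]
        have : ((t' : L) ^ 2 - a) ^ 2 - 4 * (b * t' + c) =
            (((t' ^ 2 - (a : locLO_O L)) ^ 2 - ((4 : ℤ) : locLO_O L) * ((b : locLO_O L) * t' + (c : locLO_O L)) :
              locLO_O L) : L) := by
          push_cast
          ring
        rw [this]
        exact locLO_le _
      obtain ⟨w', rfl⟩ := locLO_lift (locLO_pow (by norm_num) h1)
      have : ((t' : L) ^ 2 - a - (w' : L) ^ 2) =
          ((t' ^ 2 - (a : locLO_O L) - w' ^ 2 : locLO_O L) : L) := by
        push_cast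
        ring
      rw [this] at hx1
      have h9 : ‖((t' ^ 2 - (a : locLO_O L) - w' ^ 2 : locLO_O L) : L)‖ ≤ 1 := locLO_le _
      linarith
    have ht0 : t ≠ 0 := by
      rintro rfl
      rw [norm_zero] at ht
      linarith
    obtain ⟨u, hu⟩ := locLO_lift (z := 1 / t) (by
      rw [norm_div, norm_one]
      exact (div_le_one (by linarith)).2 ht.le)
    have hu1 : locLO_r L u = 0 := by
      rw [locLO_red, hu, norm_div, norm_one]
      exact (div_lt_one (by linarith)).2 ht
    have htu : t * u = 1 := by rw [hu]; field_simp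
    have hs4 : (w / t) ^ 4 =
        (((1 - (a : locLO_O L) * u ^ 2) ^ 2 - ((4 : ℤ) : locLO_O L) *
          ((b : locLO_O L) * u ^ 3 + (c : locLO_O L) * u ^ 4) : locLO_O L) : L) := by
      push_cast
      rw [hu]
      field_simp
      linear_combination hw
    obtain ⟨s, hs⟩ := locLO_lift (z := w / t) (locLO_pow (n := 4) (by norm_num) (by
      rw [hs4]; exact locLO_le _))
    have hs4' : s ^ 4 = (1 - (a : locLO_O L) * u ^ 2) ^ 2 -
        ((4 : ℤ) : locLO_O L) * ((b : locLO_O L) * u ^ 3 + (c : locLO_O L) * u ^ 4) := by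
      rw [← hs] at hs4
      exact Subtype.ext (by rw [← hs4]; push_cast; ring)
    have hr4 : (locLO_r L s) ^ 4 = 1 := by
      have := congrArg (locLO_r L) hs4'
      simp only [map_pow, map_sub, map_mul, map_add, map_one, hu1] at this
      rw [this]
      ring
    by_cases h2 : (locLO_r L s) ^ 2 = 1
    · exfalso
      have hw' : w = s * t := by rw [hs]; field_simp
      -- `(t²-a-w²) (1 - a u² + s²) = 4 (u + c u²)`
      have hprod : (t ^ 2 - a - w ^ 2) * ((1 - (a : locLO_O L) * u ^ 2 + s ^ 2 : locLO_O L) : L) =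
          ((((4 : ℤ) : locLO_O L) * ((b : locLO_O L) * u + (c : locLO_O L) * u ^ 2) : locLO_O L) : L) := by
        push_cast
        rw [hs, hu]
        field_simp
        linear_combination -hw
      have hn1 : ‖((1 - (a : locLO_O L) * u ^ 2 + s ^ 2 : locLO_O L) : L)‖ = 1 := by
        refine le_antisymm (locLO_le _) (not_lt.1 fun hlt => ?_)
        rw [← locLO_red] at hlt
        simp only [map_add, map_sub, map_mul, map_pow, map_one, hu1, h2] at hlt
        apply locLO_two' (L := L) hq hq2 hqL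
        linear_combination hlt
      have hn2 : ‖((((4 : ℤ) : locLO_O L) * ((b : locLO_O L) * u + (c : locLO_O L) * u ^ 2) : locLO_O L) : L)‖ < 1 := by
        rw [← locLO_red]
        simp only [map_add, map_mul, map_pow, hu1]
        ring
      have := congrArg norm hprod
      rw [norm_mul, hn1, mul_one] at this
      linarith
    · refine locLO_sq hsq (-1) ⟨locLO_r L s, ?_⟩
      rw [← pow_two, locLO_four hr4 h2]
      push_cast
      ring

/-- (Lq), `q` odd -/
theorem local_oddL {a b c : ℤ} (hP : Par₀ a b c) {q : ℕ} (hq : q.Prime) (hq2 : q ≠ 2)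
    {L : Type*} [NormedField L] [IsUltrametricDist L] [CharZero L] (hqL : ‖((q : ℕ) : L)‖ < 1)
    (hsq : ∀ (x : ℤ) (z : L), ‖z ^ 2 - (x : L)‖ < 1 → IsSquare ((x : ℤ) : ZMod q))
    (P : CPt L a b c) (m : ℤ) {δ : ℝ} (hδ : 0 < δ) (hδ1 : δ < 1)
    (hm : NearL δ (m • Q₀ L a c hP.odd) (f hP.odd P))
    (hW : ¬ (q : ℤ) ∣ W a b c (2 * m - 1)) : IsSquare ((W a b c (2 * m - 1) : ℤ) : ZMod q) := by
  have hFq : Fact q.Prime := ⟨hq⟩
  have hcop : ∀ i j : ℤ, IsCoprime i j → (q : ℤ) ∣ W a b c i → (q : ℤ) ∣ W a b c j → False := by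
    intro i j hij h1 h2
    have h3 := Int.isUnit_iff.mp ((cop_W hP i j hij).isUnit_of_dvd' h1 h2)
    have h4 := hq.two_le
    omega
  have hz : ∀ n : ℤ, ((W a b c n : ℤ) : ZMod q) = 0 ↔ (q : ℤ) ∣ W a b c n := fun n =>
    ZMod.intCast_zmod_eq_zero_iff_dvd _ _
  have hsqW := sq_W hP q hq hq2
  by_cases hα : (q : ℤ) ∣ W a b c m
  · -- (α)
    -- `W_{2m-1} = W_{m+1} W_{m-1}³ - W_{m-2} W_m³`
    have hd : ((W a b c (2 * m - 1) : ℤ) : ZMod q) = (W a b c (m + 1) : ℤ) * (W a b c (m - 1) : ℤ) ^ 3 -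
        (W a b c (m - 2) : ℤ) * (W a b c m : ℤ) ^ 3 := by
      have h := W_dbl_add_one a b c (m - 1)
      rw [show 2 * (m - 1) + 1 = 2 * m - 1 by ring, show m - 1 + 2 = m + 1 by ring,
        show m - 1 - 1 = m - 2 by ring, show m - 1 + 1 = m by ring] at h
      rw [h]
      push_cast
      ring
    have hm1 : ¬ (q : ℤ) ∣ W a b c (m + 1) := fun h => hcop m (m + 1) ⟨-1, 1, by ring⟩ hα h
    have hm2 : ¬ (q : ℤ) ∣ W a b c (m - 1) := fun h => hcop m (m - 1) ⟨1, -1, by ring⟩ hα h
    have hneg : IsSquare (-1 : ZMod q) := by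
      apply locLO_neg_one hP.odd hq hq2 hqL hsq P
      cases hfP : f hP.odd P with
      | zero => exact Or.inl rfl
      | some x' y' h' =>
        refine Or.inr ⟨x', y', h', rfl, ?_⟩
        rw [hfP] at hm
        rcases eq_or_ne m 0 with rfl | hm0
        · rw [zero_smul] at hm
          exact absurd hm id
        obtain ⟨h, e⟩ := zsmul_Q₀ (K := L) hP m hm0
        rw [e] at hm
        have h1 : ‖(X a b c m : L) / (W a b c m : L) ^ 2 - x'‖ < 1 := hm.1.trans_lt hδ1
        have hXn : ‖(X a b c m : L)‖ = 1 := by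
          apply locLO_unit hq hqL
          simp only [X, dvd_neg]
          intro h2
          rcases (Nat.prime_iff_prime_int.1 hq).dvd_or_dvd h2 with h3 | h3
          · exact hm1 h3
          · exact hm2 h3
        have hWn : ‖(W a b c m : L)‖ < 1 := by
          have h1 := (locLO_int (L := L) hq hqL (W a b c m)).2 hα
          have h2 : ((W a b c m : ℤ) : locLO_k L) = locLO_r L ((W a b c m : ℤ) : locLO_O L) := by
            simp
          rw [h2, locLO_red, Subring.coe_intCast] at h1
          exact h1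
        have hW0 : (W a b c m : L) ≠ 0 := by
          exact_mod_cast W_ne hP m hm0
        have h2 : 1 < ‖(X a b c m : L) / (W a b c m : L) ^ 2‖ := by
          rw [norm_div, hXn, norm_pow]
          have h3 : 0 < ‖(W a b c m : L)‖ := norm_pos_iff.2 hW0
          exact (one_lt_div (by positivity)).2 (pow_lt_one₀ h3.le hWn two_ne_zero)
        by_contra hcon
        push Not at hcon
        have h7 := IsUltrametricDist.norm_add_le_max
          ((X a b c m : L) / (W a b c m : L) ^ 2 - x') x'
        rw [sub_add_cancel] at h7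
        have := h7.trans (max_le h1.le hcon)
        linarith
    have h1 := hsqW m hα
    push_cast at h1
    have h2 : ((W a b c (2 * m - 1) : ℤ) : ZMod q) =
        (-(((W a b c (m + 1) : ℤ) : ZMod q) * ((W a b c (m - 1) : ℤ) : ZMod q))) * (-1) *
          ((W a b c (m - 1) : ℤ) : ZMod q) ^ 2 := by
      rw [hd, (hz m).2 hα]
      ring
    rw [h2]
    exact (h1.mul hneg).mul (IsSquare.sq _)
  by_cases hβ : (q : ℤ) ∣ W a b c (m - 1)
  · -- (β)
    have hd : ((W a b c (2 * m - 1) : ℤ) : ZMod q) = (W a b c (m + 1) : ℤ) * (W a b c (m - 1) : ℤ) ^ 3 -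
        (W a b c (m - 2) : ℤ) * (W a b c m : ℤ) ^ 3 := by
      have h := W_dbl_add_one a b c (m - 1)
      rw [show 2 * (m - 1) + 1 = 2 * m - 1 by ring, show m - 1 + 2 = m + 1 by ring,
        show m - 1 - 1 = m - 2 by ring, show m - 1 + 1 = m by ring] at h
      rw [h]
      push_cast
      ring
    have h1 := hsqW (m - 1) hβ
    rw [show m - 1 + 1 = m by ring, show m - 1 - 1 = m - 2 by ring] at h1
    push_cast at h1
    have h2 : ((W a b c (2 * m - 1) : ℤ) : ZMod q) =
        (-(((W a b c m : ℤ) : ZMod q) * ((W a b c (m - 2) : ℤ) : ZMod q))) *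
          ((W a b c m : ℤ) : ZMod q) ^ 2 := by
      rw [hd, (hz _).2 hβ]
      ring
    rw [h2]
    exact h1.mul (IsSquare.sq _)
  -- (γ)
  have hd : ((W a b c (2 * m - 1) : ℤ) : locLO_k L) = (W a b c (m + 1) : ℤ) * (W a b c (m - 1) : ℤ) ^ 3 -
      (W a b c (m - 2) : ℤ) * (W a b c m : ℤ) ^ 3 := by
    have h := W_dbl_add_one a b c (m - 1)
    rw [show 2 * (m - 1) + 1 = 2 * m - 1 by ring, show m - 1 + 2 = m + 1 by ring,
      show m - 1 - 1 = m - 2 by ring, show m - 1 + 1 = m by ring] at h
    rw [h]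
    push_cast
    ring
  have hm0 : m ≠ 0 := by
    rintro rfl
    apply hα
    rw [W_zero]
    exact dvd_zero _
  have hw0 : ((W a b c m : ℤ) : locLO_k L) ≠ 0 := fun h => hα ((locLO_int hq hqL _).1 h)
  have hw1 : ((W a b c (m - 1) : ℤ) : locLO_k L) ≠ 0 := fun h => hβ ((locLO_int hq hqL _).1 h)
  have hndvd2 : ¬ (q : ℤ) ∣ W a b c m ^ 2 := fun h =>
    hα ((Nat.prime_iff_prime_int.1 hq).dvd_of_dvd_pow h)
  have hqb : ¬ (q : ℤ) ∣ b := by
    intro hb
    rcases Int.even_or_odd' m with ⟨k, hk | hk⟩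
    · apply hα
      rw [hk]
      exact hb.trans (b_dvd_even a b c k)
    · apply hβ
      rw [show m - 1 = 2 * k by omega]
      exact hb.trans (b_dvd_even a b c k)
  have hb0 : (b : locLO_k L) ≠ 0 := fun h => hqb ((locLO_int hq hqL _).1 h)
  have hndvd3 : ¬ (q : ℤ) ∣ b * W a b c m ^ 3 := by
    intro h
    rcases (Nat.prime_iff_prime_int.1 hq).dvd_or_dvd h with h1 | h1
    · exact hqb h1
    · exact hα ((Nat.prime_iff_prime_int.1 hq).dvd_of_dvd_pow h1)
  obtain ⟨h, e⟩ := zsmul_Q₀ (K := L) hP m hm0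
  rw [e] at hm
  have hK : ((W a b c (m + 2) : ℤ) : locLO_k L) * ((W a b c (m - 1) : ℤ) : locLO_k L) ^ 2 +
      ((W a b c (m - 2) : ℤ) : locLO_k L) * ((W a b c (m + 1) : ℤ) : locLO_k L) ^ 2 +
      (b : locLO_k L) ^ 2 * ((W a b c m : ℤ) : locLO_k L) ^ 3 =
      2 * (c : locLO_k L) * ((W a b c (m - 1) : ℤ) : locLO_k L) *
        ((W a b c m : ℤ) : locLO_k L) * ((W a b c (m + 1) : ℤ) : locLO_k L) := by
    have := congrArg (fun z : ℤ => (z : locLO_k L)) (K_rel hP m)
    push_cast at this
    exact this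
  have hXc : ((X a b c m : ℤ) : locLO_k L) =
      -(((W a b c (m + 1) : ℤ) : locLO_k L) * ((W a b c (m - 1) : ℤ) : locLO_k L)) := by
    simp only [X]; push_cast; ring
  have hYc : ((Y a b c m : ℤ) : locLO_k L) =
      ((W a b c (m + 2) : ℤ) : locLO_k L) * ((W a b c (m - 1) : ℤ) : locLO_k L) ^ 2 -
      (c : locLO_k L) * ((W a b c (m - 1) : ℤ) : locLO_k L) * ((W a b c m : ℤ) : locLO_k L) *
        ((W a b c (m + 1) : ℤ) : locLO_k L) := by
    simp only [Y]; push_cast; ring
  cases hfP : f hP.odd P with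
  | zero =>
    exfalso
    rw [hfP] at hm
    have h1 : 1 / δ ≤ ‖(X a b c m : L) / (W a b c m : L) ^ 2‖ := hm
    rw [norm_div, norm_pow, locLO_unit hq hqL hα, one_pow, div_one] at h1
    have h2 := IsUltrametricDist.norm_intCast_le_one L (X a b c m)
    have h3 : 1 < 1 / δ := (one_lt_div hδ).2 hδ1
    linarith
  | some x' y' h' =>
    rw [hfP] at hm
    have hx : ‖(X a b c m : L) / (W a b c m : L) ^ 2 - x'‖ < 1 := hm.1.trans_lt hδ1
    have hy : ‖(Y a b c m : L) / (b * (W a b c m : L) ^ 3) - y'‖ < 1 := hm.2.trans_lt hδ1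
    obtain ⟨ξ, rfl, hξ⟩ := locLO_near hq hqL (n := X a b c m) (d := W a b c m ^ 2) hndvd2
      (z := x') (by push_cast; exact hx)
    obtain ⟨η, rfl, hη⟩ := locLO_near hq hqL (n := Y a b c m) (d := b * W a b c m ^ 3) hndvd3
      (z := y') (by push_cast; exact hy)
    push_cast at hξ hη
    -- `f P` affine with `x = 0` in the residue ring
    have hx0 : locLO_r L ξ = 0 → ((W a b c (m + 1) : ℤ) : locLO_k L) = 0 ∧
        locLO_r L η = -(b : locLO_k L) := by
      intro h0
      rw [h0, zero_mul, hXc] at hξ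
      have h1 : ((W a b c (m + 1) : ℤ) : locLO_k L) = 0 := by
        rcases mul_eq_zero.1 (neg_eq_zero.1 hξ.symm) with h2 | h2
        · exact h2
        · exact absurd h2 hw1
      refine ⟨h1, ?_⟩
      rw [hYc, h1] at hη
      rw [h1] at hK
      have h2 : (locLO_r L η + b) * (b * ((W a b c m : ℤ) : locLO_k L) ^ 3) = 0 := by
        linear_combination hη + hK
      rcases mul_eq_zero.1 h2 with h3 | h3
      · linear_combination h3
      · exact absurd h3 (mul_ne_zero hb0 (pow_ne_zero 3 hw0))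
    refine locLO_sq hsq _ ?_
    cases P with
    | inf ε hε =>
      exfalso
      have h1 : ξ = 0 ∧ η = 0 := by
        simp only [f] at hfP
        split_ifs at hfP with h2
        simp only [Q₀] at hfP
        injection hfP with h5 h6
        exact ⟨Subtype.ext h5.symm, Subtype.ext h6.symm⟩
      rw [h1.1, h1.2, map_zero] at hx0
      have h3 := (hx0 rfl).2
      exact hb0 (by linear_combination h3)
    | aff t w hw =>
      simp only [f] at hfP
      injection hfP with h5 h6
      rw [h5] at h6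
      have ht : t * ξ = η + b := by linear_combination h6
      have hw2 : w ^ 2 = t ^ 2 - (a : L) - 2 * ξ := by
        linear_combination (-2 : L) * h5
      -- `w` is integral as soon as `t` is
      have key : ∀ τ : locLO_O L, (τ : L) = t → ∃ ω : locLO_O L, (ω : L) = w ∧
          (locLO_r L ω) ^ 2 = (locLO_r L τ) ^ 2 - (a : locLO_k L) -
            2 * locLO_r L ξ := by
        rintro τ rfl
        have h1 : w ^ 2 = ((τ ^ 2 - (a : locLO_O L) - ((2 : ℤ) : locLO_O L) * ξ : locLO_O L) :
            L) := by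
          rw [hw2]
          simp only [locLO_sub, Subring.coe_pow, Subring.coe_mul, Subring.coe_intCast]
          norm_num
        obtain ⟨ω, rfl⟩ := locLO_lift (locLO_pow (n := 2) two_ne_zero (by
          rw [h1]; exact locLO_le _) : ‖w‖ ≤ 1)
        refine ⟨ω, rfl, ?_⟩
        rw [← Subring.coe_pow] at h1
        have h2 := congrArg (locLO_r L) (Subtype.ext h1)
        simp only [map_pow, map_sub, map_mul, map_intCast] at h2
        rw [h2]
        norm_num
      by_cases hξ0 : locLO_r L ξ = 0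
      · obtain ⟨h1, h2⟩ := hx0 hξ0
        have hrel : b * t + c = ξ * (t ^ 2 - (a : L)) - (ξ : L) ^ 2 := by
          have h3 : w ^ 4 = (t ^ 2 - (a : L) - 2 * ξ) ^ 2 := by
            rw [← hw2]; ring
          have h4 : (4 : L) ≠ 0 := by norm_num
          apply mul_left_cancel₀ h4
          linear_combination hw - h3
        have htn : ‖t‖ ≤ 1 := by
          by_contra hcon
          push Not at hcon
          have ht0 : t ≠ 0 := by
            rintro rfl
            rw [norm_zero] at hcon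
            linarith
          obtain ⟨u, hu⟩ := locLO_lift (L := L) (z := 1 / t) (by
            rw [norm_div, norm_one]
            exact (div_le_one (by linarith)).2 hcon.le)
          have hu1 : locLO_r L u = 0 := by
            rw [locLO_red, hu, norm_div, norm_one]
            exact (div_lt_one (by linarith)).2 hcon
          have h3 : (((b : locLO_O L) + (c : locLO_O L) * u : locLO_O L) : L) =
              ((η + (b : locLO_O L) - (a : locLO_O L) * ξ * u - ξ ^ 2 * u : locLO_O L) : L) := by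
            simp only [locLO_sub, Subring.coe_pow, Subring.coe_mul, Subring.coe_intCast,
              Subring.coe_add]
            rw [← ht, hu]
            field_simp
            linear_combination hrel
          have h4 := congrArg (locLO_r L) (Subtype.ext h3)
          simp only [map_pow, map_sub, map_mul, map_add, map_intCast, hu1, h2] at h4
          exact hb0 (by linear_combination h4)
        obtain ⟨τ, hτ⟩ := locLO_lift htn
        obtain ⟨ω, -, hω⟩ := key τ hτ
        have hτc : (b : locLO_k L) * locLO_r L τ = -(c : locLO_k L) := by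
          have h3 : (((b : locLO_O L) * τ + (c : locLO_O L) : locLO_O L) : L) =
              ((ξ * (τ ^ 2 - (a : locLO_O L)) - ξ ^ 2 : locLO_O L) : L) := by
            simp only [locLO_sub, Subring.coe_pow, Subring.coe_mul, Subring.coe_intCast,
              Subring.coe_add]
            rw [hτ]
            exact hrel
          have h4 := congrArg (locLO_r L) (Subtype.ext h3)
          simp only [map_pow, map_sub, map_mul, map_add, map_intCast, hξ0] at h4
          linear_combination h4
        have hE : ((W a b c (m + 2) : ℤ) : locLO_k L) * ((W a b c (m - 2) : ℤ) : locLO_k L) =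
            ((c : locLO_k L) ^ 2 - a * (b : locLO_k L) ^ 2) * ((W a b c m : ℤ) : locLO_k L) ^ 2 := by
          have h3 := (ell_W a b c hP.b_ne).rel m 2
          rw [show (2 : ℤ) + 1 = 3 by norm_num, show (2 : ℤ) - 1 = 1 by norm_num, W_two, W_three,
            W_one] at h3
          have h4 := congrArg (fun z : ℤ => (z : locLO_k L)) h3
          push_cast at h4
          rw [h1] at h4
          linear_combination h4
        refine ⟨locLO_r L ω * ((W a b c m : ℤ) : locLO_k L) * ((W a b c (m - 1) : ℤ) : locLO_k L), ?_⟩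
        rw [hd, h1]
        rw [h1] at hK
        rw [hξ0] at hω
        have hω' : (b : locLO_k L) ^ 2 * (locLO_r L ω) ^ 2 =
            (c : locLO_k L) ^ 2 - a * (b : locLO_k L) ^ 2 := by
          linear_combination (b : locLO_k L) ^ 2 * hω +
            ((b : locLO_k L) * locLO_r L τ - c) * hτc
        apply mul_left_cancel₀ (pow_ne_zero 2 hb0)
        linear_combination (-((W a b c (m - 2) : ℤ) : locLO_k L)) * hK +
          ((W a b c (m - 1) : ℤ) : locLO_k L) ^ 2 * hE -
          ((W a b c m : ℤ) : locLO_k L) ^ 2 * ((W a b c (m - 1) : ℤ) : locLO_k L) ^ 2 * hω'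
      · have hξn : ‖(ξ : L)‖ = 1 := by
          refine le_antisymm (locLO_le _) (not_lt.1 fun hlt => ?_)
          rw [← locLO_red] at hlt
          exact hξ0 hlt
        have htn : ‖t‖ ≤ 1 := by
          have h1 := congrArg norm ht
          rw [norm_mul, hξn, mul_one] at h1
          rw [h1]
          have h2 := locLO_le (η + (b : locLO_O L))
          simpa using h2
        obtain ⟨τ, hτ⟩ := locLO_lift htn
        obtain ⟨ω, -, hω⟩ := key τ hτ
        have hτ2 : locLO_r L τ * locLO_r L ξ = locLO_r L η + b := by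
          have h3 : ((τ * ξ : locLO_O L) : L) = ((η + (b : locLO_O L) : locLO_O L) : L) := by
            simp only [Subring.coe_mul, Subring.coe_add, Subring.coe_intCast]
            rw [hτ]
            exact ht
          have h4 := congrArg (locLO_r L) (Subtype.ext h3)
          simpa only [map_mul, map_add, map_intCast] using h4
        have hv : (((Y a b c m : ℤ) : locLO_k L) + (b : locLO_k L) ^ 2 *
            ((W a b c m : ℤ) : locLO_k L) ^ 3) ^ 2 *
            ((W a b c (m - 1) : ℤ) : locLO_k L) ^ 2 -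
            (b : locLO_k L) ^ 2 * (((a : locLO_k L)) * ((W a b c m : ℤ) : locLO_k L) ^ 2 +
              2 * ((X a b c m : ℤ) : locLO_k L)) * ((X a b c m : ℤ) : locLO_k L) ^ 2 *
              ((W a b c (m - 1) : ℤ) : locLO_k L) ^ 2 =
            (b : locLO_k L) ^ 2 * ((W a b c (2 * m - 1) : ℤ) : locLO_k L) *
              ((X a b c m : ℤ) : locLO_k L) ^ 2 := by
          have h4 := congrArg (fun z : ℤ => (z : locLO_k L)) (v_eq hP m)
          push_cast at h4 ⊢
          linear_combination h4
        rw [← hξ, ← hη] at hv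
        refine ⟨locLO_r L ω * ((W a b c m : ℤ) : locLO_k L) * ((W a b c (m - 1) : ℤ) : locLO_k L), ?_⟩
        have hne : (b : locLO_k L) ^ 2 * (locLO_r L ξ) ^ 2 * ((W a b c m : ℤ) : locLO_k L) ^ 4 ≠ 0 :=
          mul_ne_zero (mul_ne_zero (pow_ne_zero 2 hb0) (pow_ne_zero 2 hξ0)) (pow_ne_zero 4 hw0)
        apply mul_right_cancel₀ hne
        have h7 : (locLO_r L η * (b * ((W a b c m : ℤ) : locLO_k L) ^ 3) +
            (b : locLO_k L) ^ 2 * ((W a b c m : ℤ) : locLO_k L) ^ 3) =
            locLO_r L τ * locLO_r L ξ *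
            (b * ((W a b c m : ℤ) : locLO_k L) ^ 3) := by rw [hτ2]; ring
        rw [h7] at hv
        linear_combination -hv - (b : locLO_k L) ^ 2 * (locLO_r L ξ) ^ 2 *
          ((W a b c m : ℤ) : locLO_k L) ^ 6 * ((W a b c (m - 1) : ℤ) : locLO_k L) ^ 2 * hω

end main

end MP308.CG
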