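import Pool.Agent.Work.MP_308fa9_nt.CG.Geo
import Pool.Agent.Work.MP_308fa9_nt.CN.NearL
import Pool.Agent.Work.MP_308fa9_nt.CN.LocLB

/-! # Section 3 over a normed field `L`: the local condition at a place above 2 -/

set_option autoImplicit false

namespace MP308.CG

open Classical WeierstrassCurve.Affine

variable {a b c : ℤ}

theorem locLT_four (hP : Par₀ a b c) {n : ℤ} (h : (4 : ℤ) ∣ W a b c n) :
    (10 : ℤ) ∣ n := by
  have h1 := W_mod8 hP n
  have hb := hP.hb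
  unfold tab CE.tab at h1
  obtain ⟨r, hr⟩ : ∃ r : ℤ, r = n % 20 := ⟨_, rfl⟩
  rw [← hr] at h1
  have h2 : 0 ≤ r := by omega
  have h3 : r < 20 := by omega
  interval_cases r <;> split_ifs at h1 <;> simp [CE.tab0, CE.tab2] at h1 <;> omega

theorem locLT_one (hP : Par₀ a b c) {n : ℤ} (hn : n % 2 = 1)
    (h : W a b c n % 8 = 1) : n % 20 = 1 := by
  have h1 := W_mod8 hP n
  unfold tab CE.tab at h1
  rw [if_neg (by omega)] at h1
  obtain ⟨r, hr⟩ : ∃ r : ℤ, r = n % 20 := ⟨_, rfl⟩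
  rw [← hr] at h1 ⊢
  have h2 : 0 ≤ r := by omega
  have h3 : r < 20 := by omega
  rw [h] at h1
  interval_cases r <;> split_ifs at h1 <;> simp [CE.tab0, CE.tab2] at h1 <;> omega

section field

variable {L : Type*} [NormedField L] [CharZero L]

/-- the value of `v = t² - a - 2x` at `m Q₀` -/
theorem locLT_v (hP : Par₀ a b c) (m : ℤ) (hm : m ≠ 0)
    (hx : (X a b c m : L) / (W a b c m : L) ^ 2 ≠ 0) :
    (W a b c (2 * m - 1) : L) =
      (((((Y a b c m : L) / (b * (W a b c m : L) ^ 3)) + b) /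
        ((X a b c m : L) / (W a b c m : L) ^ 2)) ^ 2 - (a : L) -
        2 * ((X a b c m : L) / (W a b c m : L) ^ 2)) *
        ((W a b c m : L) * (W a b c (m - 1) : L)) ^ 2 := by
  have hW0 : (W a b c m : L) ≠ 0 := by exact_mod_cast W_ne hP m hm
  have hb0 : (b : L) ≠ 0 := by exact_mod_cast hP.b_ne
  have hX0 : (X a b c m : L) ≠ 0 := by
    intro h
    apply hx
    rw [h, zero_div]
  have hv := congrArg (fun z : ℤ => (z : L)) (v_eq hP m)
  push_cast at hv ⊢
  field_simp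
  linear_combination -hv

variable [IsUltrametricDist L]

omit [CharZero L] in
theorem locLT_odd (h2L : ‖(2 : L)‖ < 1) {n : ℤ} (hn : ¬ (2 : ℤ) ∣ n) : ‖(n : L)‖ = 1 :=
  locLB_unit Nat.prime_two (by exact_mod_cast h2L) n (by exact_mod_cast hn)

omit [CharZero L] in
theorem locLT_even (h2L : ‖(2 : L)‖ < 1) {n : ℤ} (hn : (2 : ℤ) ∣ n) : ‖(n : L)‖ < 1 := by
  obtain ⟨k, rfl⟩ := hn
  push_cast
  rw [norm_mul]
  have := IsUltrametricDist.norm_intCast_le_one L k
  calc ‖(2 : L)‖ * ‖(k : L)‖ ≤ ‖(2 : L)‖ * 1 := mul_le_mul_of_nonneg_left this (norm_nonneg _)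
    _ < 1 := by rw [mul_one]; exact h2L

theorem locLT_dvd (h2L : ‖(2 : L)‖ < 1) {n : ℤ} (hn : ‖(n : L)‖ ≤ ‖(4 : L)‖) : (4 : ℤ) ∣ n := by
  have h20 : 0 < ‖(2 : L)‖ := norm_pos_iff.2 two_ne_zero
  have h4 : ‖(4 : L)‖ = ‖(2 : L)‖ * ‖(2 : L)‖ := by rw [← norm_mul]; norm_num
  have h4lt : ‖(4 : L)‖ < ‖(2 : L)‖ := by
    rw [h4]
    exact mul_lt_of_lt_one_left h20 h2L
  by_cases h2 : (2 : ℤ) ∣ n
  · obtain ⟨k, rfl⟩ := h2
    by_cases hk : (2 : ℤ) ∣ k
    · obtain ⟨l, rfl⟩ := hk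
      exact ⟨l, by ring⟩
    · exfalso
      push_cast at hn
      rw [norm_mul, locLT_odd h2L hk, mul_one] at hn
      linarith
  · exfalso
    rw [locLT_odd h2L h2] at hn
    linarith

end field

/-- (L2). `h2`: `LocK.two_of_oddPlace`. -/
theorem local_twoL (h : Par₀ a b c)
    {L : Type*} [NormedField L] [IsUltrametricDist L] [CharZero L] (h2L : ‖(2 : L)‖ < 1)
    (h2 : ∀ (x : ℤ) (z u : L), ¬ (4 : ℤ) ∣ x → ‖u - 1‖ < ‖(4 : L)‖ → (x : L) = z ^ 2 * u → x % 8 = 1)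
    (P : CPt L a b c) :
    ∃ δ : ℝ, 0 < δ ∧ ∀ m : ℤ, NearL δ (m • Q₀ L a c h.odd) (f h.odd P) → (2 * m - 1) % 20 = 1 := by
  have h20 : 0 < ‖(2 : L)‖ := norm_pos_iff.2 two_ne_zero
  have h400 : (4 : L) ≠ 0 := by exact_mod_cast (by norm_num : (4 : ℕ) ≠ 0)
  have h40 : 0 < ‖(4 : L)‖ := norm_pos_iff.2 h400
  have h4 : ‖(4 : L)‖ = ‖(2 : L)‖ * ‖(2 : L)‖ := by rw [← norm_mul]; norm_num
  have h4lt : ‖(4 : L)‖ < 1 := by
    rw [h4]
    nlinarith
  have hint : ∀ z : ℤ, ‖(z : L)‖ ≤ 1 := fun z => IsUltrametricDist.norm_intCast_le_one L z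
  have h11 : ‖(1 : L) - 1‖ < ‖(4 : L)‖ := by rw [sub_self, norm_zero]; exact h40
  have hfour : ∀ m : ℤ, ¬ (4 : ℤ) ∣ W a b c (2 * m - 1) := by
    intro m h5
    have := locLT_four h h5
    omega
  cases P with
  | inf ε hε =>
    have hε2 : ε ^ 2 = 1 := by
      have h1 : (ε ^ 2 - 1) * (ε ^ 2 + 1) = 0 := by linear_combination hε
      rcases mul_eq_zero.1 h1 with h5 | h5
      · linear_combination h5
      · exfalso
        have h3 : (-1 : ℤ) % 8 = 1 := h2 (-1) ε 1 (by omega) h11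
          (by push_cast; linear_combination -h5)
        omega
    refine ⟨‖(4 : L)‖, h40, fun m hm => ?_⟩
    simp only [f, hε2, if_true] at hm
    rcases eq_or_ne m 0 with rfl | hm0
    · rw [zero_smul] at hm
      exact absurd hm id
    obtain ⟨hh, e⟩ := zsmul_Q₀ (K := L) h m hm0
    rw [e] at hm
    have hx : ‖(X a b c m : L) / (W a b c m : L) ^ 2‖ ≤ ‖(4 : L)‖ := by
      have := hm.1
      rwa [sub_zero] at this
    have hy : ‖(Y a b c m : L) / (b * (W a b c m : L) ^ 3)‖ ≤ ‖(4 : L)‖ := by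
      have := hm.2
      rwa [sub_zero] at this
    by_cases h5 : (5 : ℤ) ∣ m
    · exfalso
      have hWn : ‖(W a b c m : L)‖ < 1 := locLT_even h2L ((two_dvd_W_iff h m).2 h5)
      have hW0 : (W a b c m : L) ≠ 0 := by exact_mod_cast W_ne h m hm0
      have hX : ¬ (2 : ℤ) ∣ X a b c m := by
        simp only [X, dvd_neg]
        intro h6
        rcases Int.prime_two.dvd_or_dvd h6 with h3 | h3
        · rw [two_dvd_W_iff h] at h3; omega
        · rw [two_dvd_W_iff h] at h3; omega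
      have hXn : ‖(X a b c m : L)‖ = 1 := locLT_odd h2L hX
      rw [norm_div, hXn, norm_pow] at hx
      have h3 : 0 < ‖(W a b c m : L)‖ := norm_pos_iff.2 hW0
      have h6 : 1 < 1 / ‖(W a b c m : L)‖ ^ 2 :=
        (one_lt_div (by positivity)).2 (pow_lt_one₀ h3.le hWn two_ne_zero)
      linarith
    · have hWn : ‖(W a b c m : L)‖ = 1 :=
        locLT_odd h2L fun h6 => h5 ((two_dvd_W_iff h m).1 h6)
      have hbn : ‖(b : L)‖ = 1 := locLT_odd h2L (by have := h.hb; omega)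
      rw [norm_div, norm_pow, hWn, one_pow, div_one] at hx
      rw [norm_div, norm_mul, hbn, one_mul, norm_pow, hWn, one_pow, div_one] at hy
      have hx4 : (4 : ℤ) ∣ W a b c (m + 1) * W a b c (m - 1) := by
        have : (4 : ℤ) ∣ X a b c m := locLT_dvd h2L hx
        simpa only [X, dvd_neg] using this
      have hy2 : (2 : ℤ) ∣ W a b c (m + 2) * W a b c (m - 1) ^ 2 := by
        have h1 : (4 : ℤ) ∣ Y a b c m := locLT_dvd h2L hy
        have h2 : (2 : ℤ) ∣ Y a b c m := Dvd.dvd.trans (by norm_num) h1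
        have h3 : (2 : ℤ) ∣ c * W a b c (m - 1) * W a b c m * W a b c (m + 1) :=
          (((Int.dvd_of_emod_eq_zero h.hc).mul_right _).mul_right _).mul_right _
        simp only [Y] at h2
        have h4 := dvd_add h2 h3
        rwa [sub_add_cancel] at h4
      have h6 : (5 : ℤ) ∣ m + 2 ∨ (5 : ℤ) ∣ m - 1 := by
        rcases Int.prime_two.dvd_or_dvd hy2 with h3 | h3
        · left; exact (two_dvd_W_iff h _).1 h3
        · right; exact (two_dvd_W_iff h _).1 (Int.prime_two.dvd_of_dvd_pow h3)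
      have h7 : (5 : ℤ) ∣ m + 1 ∨ (5 : ℤ) ∣ m - 1 := by
        rcases Int.prime_two.dvd_or_dvd (Dvd.dvd.trans (by norm_num) hx4) with h3 | h3
        · left; exact (two_dvd_W_iff h _).1 h3
        · right; exact (two_dvd_W_iff h _).1 h3
      have h8 : (5 : ℤ) ∣ m - 1 := by omega
      have h9 : ¬ (2 : ℤ) ∣ W a b c (m + 1) := by
        rw [two_dvd_W_iff h]
        omega
      have h10 : (4 : ℤ) ∣ W a b c (m - 1) := by
        have hcop : IsCoprime (4 : ℤ) (W a b c (m + 1)) := by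
          have h11 : IsCoprime (2 : ℤ) (W a b c (m + 1)) :=
            (Int.prime_two.coprime_iff_not_dvd).2 h9
          have h12 := h11.pow_left (m := 2)
          norm_num at h12
          exact h12
        exact hcop.dvd_of_dvd_mul_left hx4
      have h12 := locLT_four h h10
      omega
  | aff t w hw =>
    obtain ⟨x, hxdef⟩ : ∃ x : L, x = (t ^ 2 - (a : L) - w ^ 2) / 2 := ⟨_, rfl⟩
    have hw2 : w ^ 2 = t ^ 2 - a - 2 * x := by rw [hxdef]; ring
    have hx0 : x ≠ 0 := by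
      intro h0
      rw [h0] at hw2
      have h1 : w ^ 4 = (t ^ 2 - a) ^ 2 := by
        rw [show w ^ 4 = (w ^ 2) ^ 2 by ring, hw2]; ring
      rw [hw] at h1
      have h4' : (4 : L) ≠ 0 := h400
      have h5 : b * t = -c := by
        apply mul_left_cancel₀ h4'
        linear_combination -h1
      have h6 := h.ha
      have h3 : (c ^ 2 - a * b ^ 2) % 8 = 1 := h2 (c ^ 2 - a * b ^ 2) (b * w) 1 (by omega) h11 (by
        rw [mul_pow, hw2]
        push_cast
        linear_combination -(b * t - c) * h5)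
      omega
    obtain ⟨ε, hε, hεw⟩ : ∃ ε : ℝ, 0 < ε ∧
        ((w = 0 ∧ ε = ‖(4 : L)‖) ∨ (w ≠ 0 ∧ ε = ‖(4 : L)‖ * ‖w‖ ^ 2)) := by
      by_cases h : w = 0
      · exact ⟨‖(4 : L)‖, h40, Or.inl ⟨h, rfl⟩⟩
      · have : 0 < ‖w‖ := norm_pos_iff.2 h
        exact ⟨‖(4 : L)‖ * ‖w‖ ^ 2, by positivity, Or.inr ⟨h, rfl⟩⟩
    have hcont : ContinuousAt (fun p : L × L =>
        ((p.2 + b) / p.1) ^ 2 - a - 2 * p.1)
        (x, t * x - b) := by
      fun_prop (disch := exact hx0)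
    obtain ⟨δ, hδ, H⟩ := Metric.continuousAt_iff.1 hcont ε hε
    have hval : ((t * x - b + b) / x) ^ 2 - a - 2 * x = w ^ 2 := by
      rw [hw2]
      field_simp
      ring
    have hxn : 0 < ‖x‖ := norm_pos_iff.2 hx0
    obtain ⟨k, hk0, hk1, hk2⟩ : ∃ k : ℝ, 0 < k ∧ k < δ ∧ k < ‖x‖ := by
      refine ⟨min δ ‖x‖ / 2, by positivity, ?_, ?_⟩
      · have := min_le_left δ ‖x‖
        have : 0 < min δ ‖x‖ := lt_min hδ hxn
        linarith
      · have := min_le_right δ ‖x‖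
        have : 0 < min δ ‖x‖ := lt_min hδ hxn
        linarith
    refine ⟨k, hk0, fun m hm => ?_⟩
    simp only [f] at hm
    rcases eq_or_ne m 0 with rfl | hm0
    · rw [zero_smul] at hm
      exact absurd hm id
    obtain ⟨hh, e⟩ := zsmul_Q₀ (K := L) h m hm0
    rw [e] at hm
    have hm1 : ‖(X a b c m : L) / (W a b c m : L) ^ 2 -
        (t ^ 2 - (a : L) - w ^ 2) / 2‖ ≤ k := hm.1
    have hm2 : ‖(Y a b c m : L) / (b * (W a b c m : L) ^ 3) -
        (t * ((t ^ 2 - (a : L) - w ^ 2) / 2) - b)‖ ≤ k := hm.2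
    rw [← hxdef] at hm1 hm2
    have hv := locLT_v (L := L) h m hm0
    obtain ⟨xm, hxm⟩ : ∃ z : L, z = (X a b c m : L) / (W a b c m : L) ^ 2 := ⟨_, rfl⟩
    obtain ⟨ym, hym⟩ : ∃ z : L, z = (Y a b c m : L) / (b * (W a b c m : L) ^ 3) := ⟨_, rfl⟩
    rw [← hxm] at hm1
    rw [← hym] at hm2
    rw [← hxm, ← hym] at hv
    have hxm0 : xm ≠ 0 := by
      rintro rfl
      rw [zero_sub, norm_neg] at hm1
      linarith
    have hd : dist (xm, ym) (x, t * x - b) < δ := by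
      rw [Prod.dist_eq, max_lt_iff, dist_eq_norm, dist_eq_norm]
      exact ⟨hm1.trans_lt hk1, hm2.trans_lt hk1⟩
    have hH := H hd
    simp only at hH
    rw [hval, dist_eq_norm] at hH
    have hv' := hv hxm0
    obtain ⟨v, hvdef⟩ : ∃ v : L, v = ((ym + b) / xm) ^ 2 - a - 2 * xm := ⟨_, rfl⟩
    rw [← hvdef] at hH hv'
    rcases hεw with ⟨hw0, hε1⟩ | ⟨hw0, hε1⟩
    · exfalso
      rw [hw0, hε1] at hH
      have h1 : ‖v‖ < ‖(4 : L)‖ := by simpa using hH
      apply hfour m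
      refine locLT_dvd (L := L) h2L ?_
      rw [hv', norm_mul, norm_pow, norm_mul]
      have h5 : (‖(W a b c m : L)‖ * ‖(W a b c (m - 1) : L)‖) ^ 2 ≤ 1 :=
        pow_le_one₀ (by positivity) (mul_le_one₀ (hint _) (norm_nonneg _) (hint _))
      calc ‖v‖ * (‖(W a b c m : L)‖ * ‖(W a b c (m - 1) : L)‖) ^ 2 ≤ ‖v‖ * 1 :=
            mul_le_mul_of_nonneg_left h5 (norm_nonneg _)
        _ ≤ ‖(4 : L)‖ := by rw [mul_one]; exact h1.le
    · have hwn : 0 < ‖w‖ := norm_pos_iff.2 hw0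
      have h1 : ‖v / w ^ 2 - 1‖ < ‖(4 : L)‖ := by
        have h5 : v / w ^ 2 - 1 = (v - w ^ 2) / w ^ 2 := by field_simp
        rw [h5, norm_div, norm_pow, div_lt_iff₀ (by positivity)]
        rw [hε1] at hH
        exact hH
      have h5 : W a b c (2 * m - 1) % 8 = 1 := by
        refine h2 _ (w * ((W a b c m : L) * (W a b c (m - 1) : L))) _ (hfour m) h1 ?_
        rw [hv']
        field_simp
      exact locLT_one h (by omega) h5

end MP308.CG
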