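import Pool.Agent.Work.MP_308fa9_nt.CG.Geo
import Pool.Agent.Work.MP_308fa9_nt.CN.NearL
import Pool.Agent.Work.MP_308fa9_nt.CN.LocLB
import Pool.Agent.Work.MP_308fa9_nt.CN.LocLT
import Pool.Agent.Work.MP_308fa9_nt.CN.LocLO

/-! # Section 3 over a normed field `L` (stage 3, replaces CG/Local and CG/LocalB): local conditions, limit

`limit_eqL` is in `CN/LocLB`, `local_twoL` in `CN/LocLT`, `local_oddL` in `CN/LocLO`. -/
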