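import Pool.Agent.Work.MP_308fa9_nt.CG.Core
import Pool.Agent.Work.MP_308fa9_nt.CN.LocK
import Pool.Agent.Work.MP_308fa9_nt.CN.LocL

/-! # The theorem over number fields of odd degree -/

set_option autoImplicit false

namespace MP308.CG

open Classical Filter NumberField IsDedekindDomain WeierstrassCurve.Affine

variable {a b c : ℤ}

/-- `f P = Q₀` only for the points `[1 : ±1 : 0]` -/
theorem eq_inf_of_f' {K : Type*} [Field K] [CharZero K] (hb : Odd b) (P : CPt K a b c)
    (h : f hb P = Q₀ K a c hb) : ∃ (ε : K) (hε : ε ^ 4 = 1), P = .inf ε hε ∧ (ε = 1 ∨ ε = -1) := by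
  have hb0 : (b : K) ≠ 0 := by
    have : b ≠ 0 := by rintro rfl; exact absurd hb (by decide)
    exact_mod_cast this
  cases P with
  | aff t w hw =>
    exfalso
    simp only [f, Q₀] at h
    injection h with h1 h2
    rw [h1] at h2
    apply hb0
    linear_combination -h2
  | inf ε hε =>
    refine ⟨ε, hε, rfl, ?_⟩
    by_cases h2 : ε ^ 2 = 1
    · exact sq_eq_one_iff.mp h2
    · exfalso
      simp only [f, h2, if_false, Q₀] at h
      exact (Point.some_ne_zero _) h.symm

theorem mainK_aux {K : Type*} [Field K] [NumberField K] (hK : Odd (Module.finrank ℚ K))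
    (h : Par a b c) (P : ∀ v : HeightOneSpectrum (𝓞 K), CPt (v.adicCompletion K) a b c)
    (hP : InClosureK K a c h.odd (fun v => f h.odd (P v))) :
    ∀ v : HeightOneSpectrum (𝓞 K), ∃ (ε : v.adicCompletion K) (hε : ε ^ 4 = 1),
      P v = .inf ε hε ∧ (ε = 1 ∨ ε = -1) := by
  intro v₀
  -- the places used: `v₀` and one place of odd degree over every prime number
  let u : ℕ → HeightOneSpectrum (𝓞 K) := fun q =>
    if hq : q.Prime then (exists_oddPlace hK hq).choose else v₀
  have hu : ∀ {q : ℕ}, q.Prime → OddPlace (u q) q := by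
    intro q hq
    simp only [u, hq, dif_pos]
    exact (exists_oddPlace hK hq).choose_spec
  choose m hm using fun N : ℕ =>
    hP (insert v₀ ((Finset.range N).image u)) (1 / ((N : ℝ) + 1)) (by positivity)
  have hsmall : ∀ δ : ℝ, 0 < δ → ∀ᶠ N : ℕ in atTop, 1 / ((N : ℝ) + 1) ≤ δ := by
    intro δ hδ
    obtain ⟨n, hn⟩ := exists_nat_one_div_lt hδ
    filter_upwards [eventually_ge_atTop n] with N hN
    refine (one_div_le_one_div_of_le (by positivity) ?_).trans hn.le
    have : (n : ℝ) ≤ N := by exact_mod_cast hN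
    linarith
  have hnear₀ : ∀ δ : ℝ, 0 < δ → ∀ᶠ N in atTop,
      NearL δ (m N • Q₀ (v₀.adicCompletion K) a c h.odd) (f h.odd (P v₀)) := by
    intro δ hδ
    filter_upwards [hsmall δ hδ] with N h1
    exact NearL.mono (by positivity) h1 (hm N v₀ (Finset.mem_insert_self _ _))
  have hnear : ∀ q : ℕ, ∀ δ : ℝ, 0 < δ → ∀ᶠ N in atTop,
      NearL δ (m N • Q₀ ((u q).adicCompletion K) a c h.odd) (f h.odd (P (u q))) := by
    intro q δ hδ
    filter_upwards [hsmall δ hδ, eventually_ge_atTop (q + 1)] with N h1 h2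
    exact NearL.mono (by positivity) h1 (hm N (u q) (Finset.mem_insert_of_mem
      (Finset.mem_image_of_mem _ (Finset.mem_range.2 h2))))
  have hlim : Lim a b c (fun N => 2 * m N - 1) := by
    constructor
    · have h2 := hu Nat.prime_two
      obtain ⟨δ, hδ, hk⟩ := local_twoL h.toPar₀ (L := (u 2).adicCompletion K)
        (by exact_mod_cast norm_lt_one_of_mem h2.mem)
        (fun x z w h4 hw hx => two_of_oddPlace h2 h4 hw hx) (P (u 2))
      filter_upwards [hnear 2 δ hδ] with N h1 using hk _ h1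
    · intro n hn
      have hfin : ∀ q ∈ (W a b c n).natAbs.primeFactors, ∀ᶠ N in atTop,
          NearL (1 / 2) (m N • Q₀ ((u q).adicCompletion K) a c h.odd) (f h.odd (P (u q))) :=
        fun q _ => hnear q (1 / 2) (by norm_num)
      filter_upwards [(eventually_all_finset _).2 hfin] with N h1 q hq hq2 hqn hqt
      have hmem : q ∈ (W a b c n).natAbs.primeFactors :=
        Nat.mem_primeFactors.2 ⟨hq, Int.natCast_dvd.1 hqn, Int.natAbs_ne_zero.2 (W_ne h.toPar₀ n hn)⟩
      exact local_oddL h.toPar₀ hq hq2 (L := (u q).adicCompletion K) (norm_lt_one_of_mem (hu hq).mem)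
        (fun x z hz => isSquare_of_oddPlace hq hq2 (hu hq) x z hz) (P (u q)) (m N)
        (by norm_num : (0 : ℝ) < 1 / 2) (by norm_num) (h1 q hmem) hqt
  have hone : ∀ M : ℤ, M ≠ 0 → ∀ᶠ N in atTop, M ∣ m N - 1 := by
    intro M hM
    filter_upwards [core h hlim (2 * M) (by simpa using hM)] with N h1
    have : 2 * M ∣ 2 * (m N - 1) := by
      have e : 2 * (m N - 1) = 2 * m N - 1 - 1 := by ring
      rw [e]; exact h1
    exact (mul_dvd_mul_iff_left (by norm_num)).1 this
  obtain ⟨q, hq, hqv⟩ := exists_prime_mem v₀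
  exact eq_inf_of_f' h.odd (P v₀)
    (limit_eqL h.toPar₀ hq (norm_lt_one_of_mem hqv) (f h.odd (P v₀)) m hnear₀ hone)

/-- **Main theorem.** -/
theorem mainK (K : Type*) [Field K] [NumberField K] (hK : Odd (Module.finrank ℚ K))
    (a b c : ℤ) (hb : Odd b) (hc : Even c) (hbc : IsCoprime b c)
    (hD : (c ^ 2 - a * b ^ 2) % 8 = 3)
    (hF : ∀ t : ℝ, 0 < (t ^ 2 - a) ^ 2 - 4 * (b * t + c))
    (P : ∀ v : HeightOneSpectrum (𝓞 K), CPt (v.adicCompletion K) a b c) :
    InClosureK K a c hb (fun v => f hb (P v)) ↔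
      ∀ v : HeightOneSpectrum (𝓞 K), ∃ (ε : v.adicCompletion K) (hε : ε ^ 4 = 1),
        P v = .inf ε hε ∧ (ε = 1 ∨ ε = -1) := by
  refine ⟨fun hP => mainK_aux hK ⟨⟨Int.odd_iff.1 hb, Int.even_iff.1 hc, hD, hbc⟩, hF⟩ P hP, ?_⟩
  intro h S δ hδ
  refine ⟨1, fun v _ => ?_⟩
  obtain ⟨ε, hε, h1, h2⟩ := h v
  have h3 : ε ^ 2 = 1 := by rcases h2 with rfl | rfl <;> norm_num
  have : f hb (P v) = Q₀ (v.adicCompletion K) a c hb := by rw [h1]; simp [f, h3]
  have e : (1 : ℤ) • Q₀ (v.adicCompletion K) a c hb = Q₀ (v.adicCompletion K) a c hb := one_smul _ _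
  simp only [this]
  rw [e]
  exact NearL.refl hδ _

end MP308.CG
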