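import Mathlib

/-! # Places of odd degree of a number field of odd degree -/

set_option autoImplicit false
set_option linter.deprecated false

namespace MP308.CG

open NumberField IsDedekindDomain

/-- `v` divides `q`, with odd residue degree and odd ramification index -/
structure OddPlace {K : Type*} [Field K] [NumberField K] (v : HeightOneSpectrum (𝓞 K)) (q : ℕ) : Prop where
  mem : (q : 𝓞 K) ∈ v.asIdeal
  deg : ∃ f : ℕ, Odd f ∧ Nat.card (𝓞 K ⧸ v.asIdeal) = q ^ f
  ram : ∃ e : ℕ, Odd e ∧ v.valuation K (q : K) = WithZero.exp (-(e : ℤ))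

/-- from `∑ e f = [K : ℚ]` -/
theorem exists_oddPlace {K : Type*} [Field K] [NumberField K] (hK : Odd (Module.finrank ℚ K))
    {q : ℕ} (hq : q.Prime) : ∃ v : HeightOneSpectrum (𝓞 K), OddPlace v q := by
  classical
  have hqp : Prime (q : ℤ) := Nat.prime_iff_prime_int.mp hq
  have hq0 : (q : ℤ) ≠ 0 := hqp.ne_zero
  set p : Ideal ℤ := Ideal.span {(q : ℤ)} with hp
  have hpp : p.IsPrime := (Ideal.span_singleton_prime hq0).mpr hqp
  have hp0 : p ≠ ⊥ := by simpa [hp] using hq.ne_zero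
  have hpm : p.IsMaximal := hpp.isMaximal hp0
  have hsum := Ideal.sum_ramification_inertia (𝓞 K) ℚ K hp0
  rw [← hsum] at hK
  obtain ⟨P, hP, hodd⟩ : ∃ P ∈ IsDedekindDomain.primesOverFinset p (𝓞 K),
      Odd (Ideal.ramificationIdx' p P * Ideal.inertiaDeg' p P) := by
    by_contra hcon
    push Not at hcon
    have : Even (∑ P ∈ IsDedekindDomain.primesOverFinset p (𝓞 K),
        Ideal.ramificationIdx' p P * Ideal.inertiaDeg' p P) := by
      apply Finset.even_sum
      intro P hP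
      exact Nat.not_odd_iff_even.mp (hcon P hP)
    exact (Nat.not_odd_iff_even.mpr this) hK
  obtain ⟨hP1, hP2⟩ := (IsDedekindDomain.mem_primesOverFinset_iff hp0 _).mp hP
  obtain ⟨hoe, hof⟩ := Nat.odd_mul.mp hodd
  have hPbot : P ≠ ⊥ := Ideal.ne_bot_of_liesOver_of_ne_bot hp0 P
  refine ⟨⟨P, hP1, hPbot⟩, ?_, ?_, ?_⟩
  · have h1 : (q : ℤ) ∈ p := Ideal.mem_span_singleton_self _
    rw [hP2.over, Ideal.mem_comap] at h1
    simpa using h1
  · refine ⟨Ideal.inertiaDeg' p P, hof, ?_⟩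
    have h2 := Ideal.absNorm_eq_pow_inertiaDeg' P hq
    rw [Ideal.absNorm_apply, Submodule.cardQuot_apply] at h2
    exact h2
  · refine ⟨Ideal.ramificationIdx' p P, hoe, ?_⟩
    let v : HeightOneSpectrum ℤ := ⟨p, hpp, hp0⟩
    let w : HeightOneSpectrum (𝓞 K) := ⟨P, hP1, hPbot⟩
    have : w.asIdeal.LiesOver v.asIdeal := hP2
    have h3 := HeightOneSpectrum.valuation_liesOver (A := ℤ) (K := ℚ) (B := 𝓞 K) K v w (q : ℚ)
    have h3' : algebraMap ℚ K (q : ℚ) = (q : K) := map_natCast _ _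
    rw [h3'] at h3
    change w.valuation K (q : K) = _
    rw [← h3]
    have h4 : v.valuation ℚ (q : ℚ) = WithZero.exp (-1 : ℤ) := by
      have h5 : (q : ℚ) = algebraMap ℤ ℚ (q : ℤ) := by simp
      rw [h5, HeightOneSpectrum.valuation_of_algebraMap]
      exact v.intValuation_singleton hq0 rfl
    rw [h4]
    change WithZero.exp (-1 : ℤ) ^ (Ideal.ramificationIdx' p P) = _
    rw [← WithZero.exp_nsmul]
    simp

/-- every finite place lies over a prime number -/
theorem exists_prime_mem {K : Type*} [Field K] [NumberField K] (v : HeightOneSpectrum (𝓞 K)) :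
    ∃ q : ℕ, q.Prime ∧ (q : 𝓞 K) ∈ v.asIdeal := by
  classical
  have hfin : Finite (𝓞 K ⧸ v.asIdeal) := Ideal.finiteQuotientOfFreeOfNeBot _ v.ne_bot
  have : v.asIdeal.IsMaximal := v.isMaximal
  letI : Field (𝓞 K ⧸ v.asIdeal) := Ideal.Quotient.field _
  obtain ⟨q, hq⟩ := CharP.exists (𝓞 K ⧸ v.asIdeal)
  have hqp : q.Prime := (CharP.char_is_prime_or_zero (𝓞 K ⧸ v.asIdeal) q).resolve_right
    (CharP.char_ne_zero_of_finite (𝓞 K ⧸ v.asIdeal) q)
  refine ⟨q, hqp, ?_⟩
  rw [← Ideal.Quotient.eq_zero_iff_mem, map_natCast]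
  exact CharP.cast_eq_zero _ q

end MP308.CG
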